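import Pool.Agent.K6.H22.PG.Stm

/-! Maximal plane straight-line graphs: at most two bad darts per vertex. -/

set_option autoImplicit false

namespace Pool.Agent.K6.H22.PG

theorem par_trans {o p u w : ℝ × ℝ} (hp : p ≠ o) (h1 : cr o p u = 0) (h2 : cr o p w = 0) :
    cr o u w = 0 := by
  have e1 : (p.1 - o.1) * cr o u w = 0 := by
    have : (p.1 - o.1) * cr o u w = (u.1 - o.1) * cr o p w - (w.1 - o.1) * cr o p u := by
      unfold cr; ring
    rw [this, h1, h2]; ring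
  have e2 : (p.2 - o.2) * cr o u w = 0 := by
    have : (p.2 - o.2) * cr o u w = (u.2 - o.2) * cr o p w - (w.2 - o.2) * cr o p u := by
      unfold cr; ring
    rw [this, h1, h2]; ring
  rcases mul_eq_zero.1 e1 with h3 | h3
  · rcases mul_eq_zero.1 e2 with h4 | h4
    · exact (hp (Prod.ext (by linarith) (by linarith))).elim
    · exact h4
  · exact h3

variable {ι : Type} {P : ι → ℝ × ℝ} {G H : SimpleGraph ι}

theorem same_left (h2 : S_SEC2) (hG : MaxPlane P G) {c q x : ι} {s : ℝ × ℝ} (hq : G.Adj c q)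
    (hx : G.Adj c x) (h0 : cr (P c) (P q) (P x) = 0) (e1 : 0 < cr (P c) s (P q))
    (e2 : 0 < cr (P c) s (P x)) : q = x := by
  refine h2 ι P G hG c q x hq hx h0 ⟨(2 * (P c).1 - s.1, 2 * (P c).2 - s.2), ?_, ?_⟩
  · unfold cr at e1 ⊢
    simp only
    linarith
  · unfold cr at e2 ⊢
    simp only
    linarith

/-- Lemma A -/
theorem bad_cone (h1 : S_SEC1) (h2 : S_SEC2) (hG : MaxPlane P G) {c s q p x : ι}
    (hF : Face P G c q p) (hF' : Face P G c s q) (hb : cr (P c) (P s) (P p) ≤ 0)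
    (hx : G.Adj c x) (hxq : x ≠ q) :
    cr (P c) (P s) (P x) ≤ 0 ∧ cr (P c) (P x) (P p) ≤ 0 := by
  have k1 := h1 ι P G hG c s q hF' x hx
  have k2 := h1 ι P G hG c q p hF x hx
  have hqp := hF.2.2.2.1
  have hsq := hF'.2.2.2.1
  have i := cr_id (P c) (P s) (P q) (P p) (P x)
  have w1 : cr (P c) (P p) (P s) = - cr (P c) (P s) (P p) := cr_swap _ _ _
  have w2 : cr (P c) (P x) (P q) = - cr (P c) (P q) (P x) := cr_swap _ _ _
  have w3 : cr (P c) (P p) (P x) = - cr (P c) (P x) (P p) := cr_swap _ _ _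
  rw [w1, w3] at i
  rw [w2] at k1
  constructor
  · by_contra h
    push Not at h
    have a1 : 0 ≤ cr (P c) (P q) (P x) := by
      by_contra h'
      exact k1 h (by linarith)
    rcases a1.eq_or_lt with a2 | a2
    · exact hxq (same_left h2 hG hF.1 hx a2.symm hsq h).symm
    · have a3 : cr (P c) (P x) (P p) ≤ 0 := by
        by_contra h'
        exact k2 a2 (not_le.1 h')
      nlinarith [mul_pos hqp h, mul_nonneg (neg_nonneg.2 hb) a2.le, mul_nonneg hsq.le
        (neg_nonneg.2 a3)]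
  · by_contra h
    push Not at h
    have a1 : cr (P c) (P q) (P x) ≤ 0 := by
      by_contra h'
      exact k2 (not_le.1 h') h
    rcases a1.eq_or_lt with a2 | a2
    · exact hxq (h2 ι P G hG c q x hF.1 hx a2 ⟨P p, hqp, h⟩).symm
    · have a3 : cr (P c) (P s) (P x) ≤ 0 := by
        by_contra h'
        exact k1 (not_le.1 h') (by linarith)
      nlinarith [mul_pos hsq h, mul_nonneg (neg_nonneg.2 hb) (neg_pos.2 a2).le,
        mul_nonneg hqp.le (neg_nonneg.2 a3)]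

/-- Lemma B -/
theorem bad_share (h1 : S_SEC1) (h2 : S_SEC2) (hG : MaxPlane P G) {c s q p s' q' p' u w : ι}
    (hF : Face P G c q p) (hF' : Face P G c s q) (hb : cr (P c) (P s) (P p) ≤ 0)
    (gF : Face P G c q' p') (gF' : Face P G c s' q') (gb : cr (P c) (P s') (P p') ≤ 0)
    (hqq : q ≠ q') (hu : G.Adj c u) (hw : G.Adj c w) (huw : cr (P c) (P u) (P w) ≠ 0)
    (u1 : u ≠ q) (u2 : u ≠ q') (w1 : w ≠ q) (w2 : w ≠ q') : q = s' ∨ q = p' := by
  by_contra hcon
  push Not at hcon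
  have a1 := bad_cone h1 h2 hG hF hF' hb gF'.1 (Ne.symm hcon.1)
  have a2 := bad_cone h1 h2 hG hF hF' hb gF.1 hqq.symm
  have a3 := bad_cone h1 h2 hG hF hF' hb gF.2.2.1.symm (Ne.symm hcon.2)
  have b1 := gF.2.2.2.1
  have b2 := gF'.2.2.2.1
  have i := cr_id (P c) (P s') (P q') (P p') (P s)
  have e1 : cr (P c) (P p') (P s') = - cr (P c) (P s') (P p') := cr_swap _ _ _
  have e2 : cr (P c) (P s') (P s) = - cr (P c) (P s) (P s') := cr_swap _ _ _
  have e3 : cr (P c) (P q') (P s) = - cr (P c) (P s) (P q') := cr_swap _ _ _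
  have e4 : cr (P c) (P p') (P s) = - cr (P c) (P s) (P p') := cr_swap _ _ _
  rw [e1, e2, e3, e4] at i
  have z1 : cr (P c) (P s) (P s') = 0 := by
    have t1 := mul_nonneg b1.le (neg_nonneg.2 a1.1)
    have t2 := mul_nonneg (neg_nonneg.2 gb) (neg_nonneg.2 a2.1)
    have t3 := mul_nonneg b2.le (neg_nonneg.2 a3.1)
    have t4 : cr (P c) (P q') (P p') * -cr (P c) (P s) (P s') = 0 := by linarith
    rcases mul_eq_zero.1 t4 with h | h
    · exact absurd h b1.ne'
    · linarith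
  have key : ∀ x, G.Adj c x → x ≠ q → x ≠ q' → cr (P c) (P s) (P x) = 0 := by
    intro x hx x1 x2
    have c1 := bad_cone h1 h2 hG hF hF' hb hx x1
    have c2 := bad_cone h1 h2 hG gF gF' gb hx x2
    have j := cr_id (P c) (P s) (P s') (P q') (P x)
    rw [z1, e3] at j
    have t1 : 0 ≤ cr (P c) (P s') (P q') * cr (P c) (P s) (P x) := by
      have := mul_nonneg (neg_nonneg.2 a2.1) (neg_nonneg.2 c2.1)
      linarith
    have t2 : 0 ≤ cr (P c) (P s) (P x) := by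
      by_contra h
      push Not at h
      have := mul_pos b2 (neg_pos.2 h)
      linarith
    exact le_antisymm c1.1 t2
  refine huw (par_trans ?_ (key u hu u1 u2) (key w hw w1 w2))
  intro h
  exact hF'.1.ne (hG.inj h).symm

/-- Lemma C, one orientation -/
theorem bad_three (h1 : S_SEC1) (h2 : S_SEC2) (hG : MaxPlane P G)
    {c s1 q1 p1 s2 q2 p2 s3 q3 p3 u w : ι}
    (f1 : Face P G c q1 p1) (g1 : Face P G c s1 q1) (b1 : cr (P c) (P s1) (P p1) ≤ 0)
    (f2 : Face P G c q2 p2) (g2 : Face P G c s2 q2) (b2 : cr (P c) (P s2) (P p2) ≤ 0)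
    (f3 : Face P G c q3 p3) (g3 : Face P G c s3 q3) (b3 : cr (P c) (P s3) (P p3) ≤ 0)
    (n12 : q1 ≠ q2) (n13 : q1 ≠ q3) (n23 : q2 ≠ q3)
    (hu : G.Adj c u) (hw : G.Adj c w) (huw : cr (P c) (P u) (P w) ≠ 0)
    (u1 : u ≠ q1) (u2 : u ≠ q2) (u3 : u ≠ q3) (w1 : w ≠ q1) (w2 : w ≠ q2) (w3 : w ≠ q3)
    (hs1 : q2 = s1) (hp1 : q3 = p1) : False := by
  subst hs1 hp1
  have x31 := bad_share h1 h2 hG f1 g1 b1 f3 g3 b3 n13 hu hw huw u1 u3 w1 w3
  have x32 := bad_share h1 h2 hG f2 g2 b2 f3 g3 b3 n23 hu hw huw u2 u3 w2 w3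
  have x21 := bad_share h1 h2 hG f1 g1 b1 f2 g2 b2 n12 hu hw huw u1 u2 w1 w2
  have x23 := bad_share h1 h2 hG f3 g3 b3 f2 g2 b2 n23.symm hu hw huw u3 u2 w3 w2
  have A1 := bad_cone h1 h2 hG f1 g1 b1 hu u1
  have A2 := bad_cone h1 h2 hG f2 g2 b2 hu u2
  have A3 := bad_cone h1 h2 hG f3 g3 b3 hu u3
  have c13 := f1.2.2.2.1
  have c21 := g1.2.2.2.1
  have c2p := f2.2.2.2.1
  have cs2 := g2.2.2.2.1
  have c3p := f3.2.2.2.1
  have cs3 := g3.2.2.2.1
  -- `s3 = q1`, `p3 = q2`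
  have hs3 : q1 = s3 := by
    rcases x31 with h | h
    · exact h
    · exfalso
      rw [← h, cr_swap] at c3p
      linarith
  have hp3 : q2 = p3 := by
    rcases x32 with h | h
    · exact (n12 (hs3.trans h.symm)).elim
    · exact h
  have hp2 : q1 = p2 := by
    rcases x21 with h | h
    · exfalso
      rw [← h, cr_swap] at cs2
      linarith
    · exact h
  have hs2 : q3 = s2 := by
    rcases x23 with h | h
    · exact h
    · exact (n13 (hp2.trans h.symm)).elim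
  subst hs3 hp3 hp2 hs2
  have y1 : cr (P c) (P u) (P q3) = - cr (P c) (P q3) (P u) := cr_swap _ _ _
  have y2 : cr (P c) (P u) (P q2) = - cr (P c) (P q2) (P u) := cr_swap _ _ _
  have y3 : cr (P c) (P u) (P q1) = - cr (P c) (P q1) (P u) := cr_swap _ _ _
  have z1 : cr (P c) (P u) (P q3) = 0 := by linarith [A1.2, A2.1]
  have z2 : cr (P c) (P u) (P q1) = 0 := by linarith [A2.2, A3.1]
  have := par_trans (fun h => hu.ne (hG.inj h).symm) z2 z1
  linarith

/-- Lemma D -/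
theorem bad_hull (h1 : S_SEC1) (h2 : S_SEC2) (hG : MaxPlane P G) {c s q p u w d : ι}
    (hF : Face P G c q p) (hF' : Face P G c s q) (hb : cr (P c) (P s) (P p) ≤ 0)
    (hu : G.Adj c u) (hw : G.Adj c w) (huw : cr (P c) (P u) (P w) ≠ 0)
    (u1 : u ≠ q) (w1 : w ≠ q) (hd : G.Adj c d) (hout : ∀ x, cr (P c) (P d) (P x) ≤ 0) : False := by
  have b1 := hF.2.2.2.1
  have b2 := hF'.2.2.2.1
  have i := cr_id (P c) (P s) (P q) (P p) (P d)
  have e1 : cr (P c) (P p) (P s) = - cr (P c) (P s) (P p) := cr_swap _ _ _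
  have e2 : cr (P c) (P s) (P d) = - cr (P c) (P d) (P s) := cr_swap _ _ _
  have e3 : cr (P c) (P q) (P d) = - cr (P c) (P d) (P q) := cr_swap _ _ _
  have e4 : cr (P c) (P p) (P d) = - cr (P c) (P d) (P p) := cr_swap _ _ _
  rw [e1, e2, e3, e4] at i
  have z1 : cr (P c) (P p) (P d) = 0 := by
    have t1 := mul_nonneg b1.le (neg_nonneg.2 (hout s))
    have t2 := mul_nonneg (neg_nonneg.2 hb) (neg_nonneg.2 (hout q))
    have t3 := mul_nonneg b2.le (neg_nonneg.2 (hout p))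
    have t4 : cr (P c) (P s) (P q) * -cr (P c) (P d) (P p) = 0 := by linarith
    rcases mul_eq_zero.1 t4 with h | h
    · exact absurd h b2.ne'
    · linarith
  have key : ∀ x, G.Adj c x → x ≠ q → cr (P c) (P d) (P x) = 0 := by
    intro x hx x1
    have c1 := bad_cone h1 h2 hG hF hF' hb hx x1
    have j := cr_id (P c) (P p) (P d) (P q) (P x)
    rw [z1] at j
    have e5 : cr (P c) (P p) (P x) = - cr (P c) (P x) (P p) := cr_swap _ _ _
    rw [e5] at j
    have t1 : 0 ≤ cr (P c) (P q) (P p) * cr (P c) (P d) (P x) := by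
      have := mul_nonneg (neg_nonneg.2 (hout q)) (neg_nonneg.2 c1.2)
      linarith
    have t2 : 0 ≤ cr (P c) (P d) (P x) := by
      by_contra h
      push Not at h
      have := mul_pos b1 (neg_pos.2 h)
      linarith
    exact le_antisymm (hout x) t2
  exact huw (par_trans (fun h => hd.ne (hG.inj h).symm) (key u hu u1) (key w hw w1))

theorem piece_BAD (h1 : S_SEC1) (h2 : S_SEC2) : S_BAD := by
  classical
  intro ι _ P G H hG hGH hp
  have := Fintype.ofFinite ι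
  -- unfold a bad dart
  have unf : ∀ x ∈ bad P G H, ∃ s p, Face P G x.1 x.2 p ∧ Face P G x.1 s x.2 ∧
      cr (P x.1) (P s) (P p) ≤ 0 ∧ ¬ H.Adj x.1 x.2 := by
    rintro x ⟨_, hH, r, s, hr, hs, hc⟩
    exact ⟨s, r, hr, hs.rot, hc, hH⟩
  have hnot : ∀ x ∈ bad P G H, x.1 ∉ Hul P G := by
    rintro ⟨c, q⟩ hx ⟨d, hd, hout⟩
    obtain ⟨s, p, f, g, hb, hH⟩ := unf _ hx
    obtain ⟨u, w, _, huw, hadj⟩ := hp.deg c
    have hu : H.Adj c u := (hadj u).2 (Or.inl rfl)
    have hw : H.Adj c w := (hadj w).2 (Or.inr rfl)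
    exact bad_hull h1 h2 hG f g hb (hGH hu) (hGH hw) huw (fun h => hH (h ▸ hu))
      (fun h => hH (h ▸ hw)) hd hout
  have hfib : ∀ a ∈ (bad P G H).toFinset.image Prod.fst,
      ((bad P G H).toFinset.filter (fun x => x.1 = a)).card ≤ 2 := by
    intro a _
    by_contra hcon
    push Not at hcon
    obtain ⟨⟨c1, q1⟩, m1, ⟨c2, q2⟩, m2, ⟨c3, q3⟩, m3, n12, n13, n23⟩ := Finset.two_lt_card.1 hcon
    simp only [Finset.mem_filter, Set.mem_toFinset] at m1 m2 m3
    obtain ⟨m1, rfl⟩ := m1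
    obtain ⟨m2, rfl⟩ := m2
    obtain ⟨m3, rfl⟩ := m3
    have n12' : q1 ≠ q2 := fun h => n12 (by rw [h])
    have n13' : q1 ≠ q3 := fun h => n13 (by rw [h])
    have n23' : q2 ≠ q3 := fun h => n23 (by rw [h])
    obtain ⟨s1, p1, f1, g1, b1, H1⟩ := unf _ m1
    obtain ⟨s2, p2, f2, g2, b2, H2⟩ := unf _ m2
    obtain ⟨s3, p3, f3, g3, b3, H3⟩ := unf _ m3
    simp only at f1 g1 b1 H1 f2 g2 b2 H2 f3 g3 b3 H3
    obtain ⟨u, w, _, huw, hadj⟩ := hp.deg c3
    have hu : H.Adj c3 u := (hadj u).2 (Or.inl rfl)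
    have hw : H.Adj c3 w := (hadj w).2 (Or.inr rfl)
    have u1 : u ≠ q1 := fun h => H1 (h ▸ hu)
    have u2 : u ≠ q2 := fun h => H2 (h ▸ hu)
    have u3 : u ≠ q3 := fun h => H3 (h ▸ hu)
    have w1 : w ≠ q1 := fun h => H1 (h ▸ hw)
    have w2 : w ≠ q2 := fun h => H2 (h ▸ hw)
    have w3 : w ≠ q3 := fun h => H3 (h ▸ hw)
    have x12 := bad_share h1 h2 hG f2 g2 b2 f1 g1 b1 n12'.symm (hGH hu) (hGH hw) huw u2 u1 w2 w1
    have x13 := bad_share h1 h2 hG f3 g3 b3 f1 g1 b1 n13'.symm (hGH hu) (hGH hw) huw u3 u1 w3 w1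
    rcases x12 with e | e
    · rcases x13 with e' | e'
      · exact n23' (e.trans e'.symm)
      · exact bad_three h1 h2 hG f1 g1 b1 f2 g2 b2 f3 g3 b3 n12' n13' n23' (hGH hu) (hGH hw) huw
          u1 u2 u3 w1 w2 w3 e e'
    · rcases x13 with e' | e'
      · exact bad_three h1 h2 hG f1 g1 b1 f3 g3 b3 f2 g2 b2 n13' n12' n23'.symm (hGH hu) (hGH hw)
          huw u1 u3 u2 w1 w3 w2 e' e
      · exact n23' (e.trans e'.symm)
  have hle := Finset.card_le_mul_card_image (bad P G H).toFinset 2 hfib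
  have hsub : (bad P G H).toFinset.image Prod.fst ⊆ ((Hul P G)ᶜ).toFinset := by
    intro a ha
    obtain ⟨x, hx, rfl⟩ := Finset.mem_image.1 ha
    rw [Set.mem_toFinset] at hx ⊢
    exact hnot x hx
  have hle2 := Finset.card_le_card hsub
  have e1 : (bad P G H).ncard = (bad P G H).toFinset.card := Set.ncard_eq_toFinset_card' _
  have e2 : (Hul P G)ᶜ.ncard = ((Hul P G)ᶜ).toFinset.card := Set.ncard_eq_toFinset_card' _
  have e3 := Set.ncard_add_ncard_compl (Hul P G)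
  omega

end Pool.Agent.K6.H22.PG
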