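import Pool.Agent.K6.H22.PG.Stm

/-! Maximal plane straight-line graphs: the assembly. -/

set_option autoImplicit false

namespace Pool.Agent.K6.H22.PG

variable {ι : Type}

/-- the darts of the polygon -/
def pdarts (H : SimpleGraph ι) : Set (ι × ι) := {p | H.Adj p.1 p.2}

/-- every vertex has exactly two neighbours -/
def Deg (H : SimpleGraph ι) : Prop := ∀ c, ∃ u w, u ≠ w ∧ ∀ x, H.Adj c x ↔ (x = u ∨ x = w)

theorem Poly.toDeg {P : ι → ℝ × ℝ} {H : SimpleGraph ι} (hp : Poly P H) : Deg H := by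
  intro c
  obtain ⟨u, w, h1, _, h2⟩ := hp.deg c
  exact ⟨u, w, h1, h2⟩

theorem ncard_pdarts [Finite ι] {H : SimpleGraph ι} (hp : Deg H) :
    (pdarts H).ncard = 2 * Nat.card ι := by
  classical
  have := Fintype.ofFinite ι
  choose u w huw hadj using hp
  have h1 : pdarts H = Set.range (fun x : ι × Bool => (x.1, if x.2 then u x.1 else w x.1)) := by
    ext ⟨a, b⟩
    constructor
    · intro h
      rcases (hadj a b).1 h with h | h
      · exact ⟨(a, true), by simp [h]⟩
      · exact ⟨(a, false), by simp [h]⟩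
    · rintro ⟨⟨c, e⟩, h⟩
      simp only [Prod.mk.injEq] at h
      obtain ⟨rfl, rfl⟩ := h
      cases e
      · exact (hadj c _).2 (Or.inr (by simp))
      · exact (hadj c _).2 (Or.inl (by simp))
  have hinj : Function.Injective (fun x : ι × Bool => (x.1, if x.2 then u x.1 else w x.1)) := by
    rintro ⟨a, e⟩ ⟨b, f⟩ h
    simp only [Prod.mk.injEq] at h
    obtain ⟨rfl, h⟩ := h
    cases e <;> cases f <;> simp_all
    · exact (huw a h.symm)
  rw [h1, ← Set.image_univ, Set.ncard_image_of_injective _ hinj, Set.ncard_univ, Nat.card_prod]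
  simp [mul_comm]

theorem inner_le (hf : S_FACE) [Finite ι] {P : ι → ℝ × ℝ} {G H : SimpleGraph ι}
    (hG : MaxPlane P G) :
    (inner G H).ncard ≤ (flip P G H).ncard + 2 * (bad P G H).ncard +
      2 * {p ∈ outer P G | ¬ H.Adj p.1 p.2}.ncard := by
  classical
  set L := {p ∈ outer P G | ¬ H.Adj p.1 p.2} with hL
  have hsub : inner G H ⊆ ((flip P G H ∪ (bad P G H ∪ Prod.swap '' bad P G H)) ∪
      (L ∪ Prod.swap '' L)) := by
    rintro ⟨a, b⟩ ⟨hab, hH⟩
    simp only at hab hH
    by_cases h1 : ∃ x, 0 < cr (P a) (P b) (P x)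
    · by_cases h2 : ∃ x, 0 < cr (P b) (P a) (P x)
      · obtain ⟨r, hr⟩ := hf ι P G hG a b hab h1
        obtain ⟨s, hs⟩ := hf ι P G hG b a hab.symm h2
        by_cases h3 : 0 < cr (P a) (P s) (P r)
        · by_cases h4 : 0 < cr (P b) (P r) (P s)
          · exact Or.inl (Or.inl ⟨hab, hH, r, s, hr, hs, h3, h4⟩)
          · refine Or.inl (Or.inr (Or.inr ⟨(b, a), ⟨hab.symm, fun h => hH h.symm, s, r, hs, hr,
              not_lt.1 h4⟩, rfl⟩))
        · exact Or.inl (Or.inr (Or.inl ⟨hab, hH, r, s, hr, hs, not_lt.1 h3⟩))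
      · push Not at h2
        exact Or.inr (Or.inr ⟨(b, a), ⟨⟨hab.symm, h2⟩, fun h => hH h.symm⟩, rfl⟩)
    · push Not at h1
      exact Or.inr (Or.inl ⟨⟨hab, h1⟩, hH⟩)
  have e1 : (Prod.swap '' bad P G H).ncard = (bad P G H).ncard :=
    Set.ncard_image_of_injective _ Prod.swap_injective
  have e2 : (Prod.swap '' L).ncard = L.ncard :=
    Set.ncard_image_of_injective _ Prod.swap_injective
  have i1 := Set.ncard_le_ncard hsub (Set.toFinite _)
  have i2 := Set.ncard_union_le (flip P G H ∪ (bad P G H ∪ Prod.swap '' bad P G H))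
    (L ∪ Prod.swap '' L)
  have i3 := Set.ncard_union_le (flip P G H) (bad P G H ∪ Prod.swap '' bad P G H)
  have i4 := Set.ncard_union_le (bad P G H) (Prod.swap '' bad P G H)
  have i5 := Set.ncard_union_le L (Prod.swap '' L)
  omega

theorem inner_add [Finite ι] {G H : SimpleGraph ι} (hGH : H ≤ G)
    (hp : Deg H) : (darts G).ncard = (inner G H).ncard + 2 * Nat.card ι := by
  rw [← ncard_pdarts hp, ← Set.ncard_union_eq]
  · congr 1
    ext ⟨a, b⟩
    constructor
    · intro h
      by_cases hH : H.Adj a b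
      · exact Or.inr hH
      · exact Or.inl ⟨h, hH⟩
    · rintro (h | h)
      · exact h.1
      · exact hGH h
  · rw [Set.disjoint_left]
    rintro ⟨a, b⟩ h1 h2
    exact h1.2 h2

theorem piece_MAIN (hf : S_FACE) (he : S_EUL) (hb : S_BAD) (ho1 : S_OUT1) (ho2 : S_OUT2)
    (hfl : S_FLIP) : S_MAIN := by
  intro ι _ _ P G H hG hGH hp
  have a1 := he ι P G hG
  have a2 := inner_add hGH hp.toDeg
  have a3 := inner_le hf (H := H) hG
  have a4 := hb ι P G H hG hGH hp
  have a5 := ho1 ι P G H hG hGH hp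
  have a6 := ho2 ι P G H hG hGH hp
  have a7 := hfl ι P G H hG hGH hp
  omega

end Pool.Agent.K6.H22.PG
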