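import Pool.Agent.K6.H22.PG.Poly
import Pool.Agent.K6.H22.PG.Main
import Pool.Agent.K6.H22.PG.Bad

/-! Upper bound for the number of mixed diagonals. -/

set_option autoImplicit false

namespace Pool.Agent.K6.H22.PG

open Pool.Agent.Results.MP_773b78_co.ManyMixed (edge bdry IsSimple NoStraight inside outside
  IsDiagonal Mixed numMixed)

variable {n : ℕ} {v : ℕ → ℝ × ℝ}

/-- a connected set without boundary points is inside or outside -/
theorem not_mixed {s : Set (ℝ × ℝ)} (hs : IsPreconnected s) (hb : ∀ z ∈ s, z ∉ bdry n v) :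
    s ⊆ inside n v ∨ s ⊆ outside n v := by
  by_cases he : s.Nonempty
  · obtain ⟨z0, h0⟩ := he
    have hC : ∀ z ∈ s, connectedComponentIn (bdry n v)ᶜ z = connectedComponentIn (bdry n v)ᶜ z0 := by
      intro z hz
      have h1 : z ∈ connectedComponentIn (bdry n v)ᶜ z0 :=
        hs.subset_connectedComponentIn h0 (fun x hx => hb x hx) hz
      exact (connectedComponentIn_eq h1).symm
    by_cases hB : Bornology.IsBounded (connectedComponentIn (bdry n v)ᶜ z0)
    · left
      intro z hz
      exact ⟨hb z hz, by rw [hC z hz]; exact hB⟩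
    · right
      intro z hz
      exact ⟨hb z hz, by rw [hC z hz]; exact hB⟩
  · left
    intro z hz
    exact (he ⟨z, hz⟩).elim

/-- a clean diagonal is not mixed -/
theorem clean_not_mixed (hn : 3 ≤ n) {a b : Fin n}
    (h : (a, b) ∈ clean (fun i : Fin n => v i) (cyc n)) : ¬ Mixed n v a b := by
  obtain ⟨hab, hH, h1, h2⟩ := h
  have hpos : 0 < n := by omega
  simp only at h1 h2
  have hb : ∀ z ∈ openSegment ℝ (v a) (v b), z ∉ bdry n v := by
    rintro z hz ⟨i, hi, hzi⟩
    have hz' : OS (v a) (v b) z := OS_iff.2 hz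
    obtain ⟨t, t0, t1, rfl⟩ := seg_iff.1 hzi
    rcases t0.eq_or_lt with h0 | h0
    · rw [← h0, ln_zero] at hz'
      exact h1 ⟨i, hi⟩ hz'
    rcases t1.eq_or_lt with h1' | h1'
    · rw [h1', ln_one] at hz'
      exact h1 ⟨(i + 1) % n, Nat.mod_lt _ hpos⟩ hz'
    refine h2 ⟨i, hi⟩ ⟨(i + 1) % n, Nat.mod_lt _ hpos⟩ _ ⟨?_, Or.inl rfl⟩ hz' ⟨t, h0, h1', rfl⟩
    intro h
    exact succ_ne hn hi (congrArg Fin.val h).symm
  rintro ⟨m1, m2⟩
  rcases not_mixed (n := n) (v := v) (s := openSegment ℝ (v a) (v b))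
    (convex_openSegment _ _).isPreconnected hb with h | h
  · exact m1 h
  · exact m2 h

/-- ordered non-adjacent pairs -/
def nonadj (n : ℕ) : Set (Fin n × Fin n) := {p | p.1 ≠ p.2 ∧ ¬ (cyc n).Adj p.1 p.2}

theorem cyc_deg (hn : 3 ≤ n) : Deg (cyc n) := by
  intro c
  have hc := c.2
  have hpos : 0 < n := by omega
  set u : Fin n := ⟨((c : ℕ) + 1) % n, Nat.mod_lt _ hpos⟩ with hu
  set w : Fin n := ⟨if (c : ℕ) = 0 then n - 1 else c - 1, by split_ifs <;> omega⟩ with hw
  have hw1 : ((w : ℕ) + 1) % n = c := by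
    rw [succ_mod w.2]
    simp only [hw]
    split_ifs <;> omega
  refine ⟨u, w, ?_, ?_⟩
  · intro h
    have h1 := congrArg Fin.val h
    simp only [hu, hw] at h1
    rw [succ_mod hc] at h1
    split_ifs at h1 <;> omega
  · intro x
    have hx := x.2
    constructor
    · intro h
      rcases h.2 with h1 | h1
      · left
        exact Fin.ext h1
      · right
        apply Fin.ext
        simp only [hw]
        rw [succ_mod hx] at h1
        split_ifs at h1 ⊢ <;> omega
    · rintro (rfl | rfl)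
      · refine ⟨?_, Or.inl rfl⟩
        intro h
        exact succ_ne hn hc (congrArg Fin.val h).symm
      · refine ⟨?_, Or.inr hw1.symm⟩
        intro h
        have h3 := succ_ne hn w.2
        rw [hw1] at h3
        exact h3 (congrArg Fin.val h)

theorem ncard_nonadj (hp : Deg (cyc n)) :
    (nonadj n).ncard + 3 * n = n ^ 2 := by
  classical
  have h1 : (Set.univ : Set (Fin n × Fin n)) = nonadj n ∪ (pdarts (cyc n) ∪ Set.diagonal (Fin n)) := by
    ext ⟨a, b⟩
    simp only [Set.mem_univ, Set.mem_union, true_iff, Set.mem_diagonal_iff]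
    by_cases h : a = b
    · exact Or.inr (Or.inr h)
    · by_cases h' : (cyc n).Adj a b
      · exact Or.inr (Or.inl h')
      · exact Or.inl ⟨h, h'⟩
  have d1 : Disjoint (pdarts (cyc n)) (Set.diagonal (Fin n)) := by
    rw [Set.disjoint_left]
    rintro ⟨a, b⟩ h h'
    rw [Set.mem_diagonal_iff] at h'
    exact SimpleGraph.Adj.ne (show (cyc n).Adj a b from h) h'
  have d2 : Disjoint (nonadj n) (pdarts (cyc n) ∪ Set.diagonal (Fin n)) := by
    rw [Set.disjoint_left]
    rintro ⟨a, b⟩ h (h' | h')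
    · exact h.2 h'
    · rw [Set.mem_diagonal_iff] at h'
      exact h.1 h'
  have h2 : (Set.diagonal (Fin n)).ncard = n := by
    have : Set.diagonal (Fin n) = (fun i => (i, i)) '' Set.univ := by
      ext ⟨a, b⟩
      simp [Set.mem_diagonal_iff]
    rw [this, Set.ncard_image_of_injective _ (fun a b h => (Prod.mk.inj h).1), Set.ncard_univ,
      Nat.card_fin]
  have h3 := ncard_pdarts hp
  rw [Nat.card_fin] at h3
  have h4 : (Set.univ : Set (Fin n × Fin n)).ncard = n ^ 2 := by
    rw [Set.ncard_univ, Nat.card_prod, Nat.card_fin, sq]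
  rw [h1, Set.ncard_union_eq d2, Set.ncard_union_eq d1, h2, h3] at h4
  omega

theorem mixed_swap {j k : ℕ} (h : Mixed n v j k) : Mixed n v k j := by
  unfold Mixed at h ⊢
  rw [openSegment_symm]; exact h

theorem clean_swap {a b : Fin n} (h : (a, b) ∈ clean (fun i : Fin n => v i) (cyc n)) :
    (b, a) ∈ clean (fun i : Fin n => v i) (cyc n) := by
  obtain ⟨h1, h2, h3, h4⟩ := h
  exact ⟨h1.symm, fun h => h2 h.symm, fun c h => h3 c (OS_comm h),
    fun c d z h h' => h4 c d z h (OS_comm h')⟩

theorem count_le (hn : 3 ≤ n) :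
    2 * numMixed n v + (clean (fun i : Fin n => v i) (cyc n)).ncard + 3 * n ≤ n ^ 2 := by
  classical
  have hpos : 0 < n := by omega
  have hna := ncard_nonadj (cyc_deg hn)
  set C := clean (fun i : Fin n => v i) (cyc n) with hC
  set A := {p : Fin n × Fin n | p ∈ nonadj n ∧ p ∉ C ∧ p.1 < p.2} with hA
  set B := {p : Fin n × Fin n | p ∈ nonadj n ∧ p ∉ C ∧ p.2 < p.1} with hB
  have key : ∀ j k : ℕ, IsDiagonal n j k → Mixed n v j k → ∃ (hj : j < n) (hk : k < n),
      ((⟨j, hj⟩, ⟨k, hk⟩) : Fin n × Fin n) ∈ A := by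
    rintro j k ⟨h1, h2, h3⟩ hm
    have hj : j < n := by omega
    refine ⟨hj, h2, ⟨?_, ?_⟩, ?_, ?_⟩
    · intro h
      have := congrArg Fin.val h
      simp only at this
      omega
    · intro h
      rcases cyc_cases h with h | h
      · simp only at h
        rw [succ_mod hj] at h
        split_ifs at h <;> omega
      · simp only at h
        rw [succ_mod h2] at h
        split_ifs at h <;> omega
    · intro h
      exact clean_not_mixed hn h hm
    · exact Fin.mk_lt_mk.2 (by omega)
  have hMA : numMixed n v ≤ A.ncard := by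
    unfold numMixed
    refine le_trans (Set.ncard_le_ncard (t := (fun p : Fin n × Fin n => ((p.1 : ℕ), (p.2 : ℕ))) '' A)
      ?_ (Set.toFinite _)) (Set.ncard_image_le (Set.toFinite _))
    rintro ⟨j, k⟩ ⟨h1, h2⟩
    obtain ⟨hj, hk, h3⟩ := key j k h1 h2
    exact ⟨_, h3, rfl⟩
  have hBA : B = Prod.swap '' A := by
    ext ⟨a, b⟩
    constructor
    · rintro ⟨⟨h1, h2⟩, h3, h4⟩
      exact ⟨(b, a), ⟨⟨h1.symm, fun h => h2 h.symm⟩, fun h => h3 (clean_swap h), h4⟩, rfl⟩
    · rintro ⟨⟨c, d⟩, ⟨⟨h1, h2⟩, h3, h4⟩, h5⟩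
      simp only [Prod.swap_prod_mk, Prod.mk.injEq] at h5
      obtain ⟨rfl, rfl⟩ := h5
      exact ⟨⟨h1.symm, fun h => h2 h.symm⟩, fun h => h3 (clean_swap h), h4⟩
  have hBc : B.ncard = A.ncard := by
    rw [hBA]; exact Set.ncard_image_of_injective _ Prod.swap_injective
  have dAB : Disjoint A B := by
    rw [Set.disjoint_left]
    rintro ⟨a, b⟩ h1 h2
    exact lt_asymm h1.2.2 h2.2.2
  have dC : Disjoint (A ∪ B) C := by
    rw [Set.disjoint_left]
    rintro p (h | h) h'
    · exact h.2.1 h'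
    · exact h.2.1 h'
  have hsub : (A ∪ B) ∪ C ⊆ nonadj n := by
    rintro p ((h | h) | h)
    · exact h.1
    · exact h.1
    · exact ⟨h.1, h.2.1⟩
  have hle := Set.ncard_le_ncard hsub (Set.toFinite _)
  rw [Set.ncard_union_eq dC, Set.ncard_union_eq dAB, hBc] at hle
  omega

/-- the upper bound without straight angles -/
theorem upper (hM : S_MAIN) (hn : 3 ≤ n) (hs : IsSimple n v) (hv : NoStraight n v) :
    numMixed n v ≤ (n - 3) ^ 2 / 2 := by
  have hpos : 0 < n := by omega
  have : Nonempty (Fin n) := ⟨⟨0, hpos⟩⟩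
  have hp := poly_cyc hn hs hv
  obtain ⟨G, hHG, hG⟩ := ex_max (P := fun i : Fin n => v i)
    (fun a b h => Fin.ext (hs.inj a a.2 b b.2 h)) (plane_cyc hn hs)
  have hmain := hM (Fin n) _ G (cyc n) hG hHG hp
  rw [Nat.card_fin] at hmain
  have hc := count_le (v := v) hn
  obtain ⟨m, rfl⟩ := Nat.exists_eq_add_of_le hn
  rw [Nat.add_sub_cancel_left, Nat.le_div_iff_mul_le (by norm_num)]
  nlinarith

/-! ### Straight angles allowed -/

/-- the vertices of a simple polygon are not on a line -/
theorem not_line (hn : 3 ≤ n) (hs : IsSimple n v) :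
    ∃ a b c : Fin n, cr (v a) (v b) (v c) ≠ 0 := by
  by_contra hcon
  push Not at hcon
  have hpos : 0 < n := by omega
  have : Nonempty (Fin n) := ⟨⟨0, hpos⟩⟩
  have hpl := plane_cyc hn hs
  set a : Fin n := ⟨0, hpos⟩ with ha
  set b : Fin n := ⟨1, by omega⟩ with hb
  set d : ℝ × ℝ := ((v b).1 - (v a).1, (v b).2 - (v a).2) with hd
  have hab : v a ≠ v b := fun h => by
    have := hs.inj a a.2 b b.2 h
    simp [ha, hb] at this
  have hN : 0 < d.1 * d.1 + d.2 * d.2 := by
    have h1 : 0 ≤ d.1 * d.1 := mul_self_nonneg _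
    have h2 : 0 ≤ d.2 * d.2 := mul_self_nonneg _
    rcases (add_nonneg h1 h2).eq_or_lt with h | h
    · exfalso
      have e1 : d.1 = 0 := mul_self_eq_zero.1 (by linarith)
      have e2 : d.2 = 0 := mul_self_eq_zero.1 (by linarith)
      apply hab
      simp only [hd] at e1 e2
      ext <;> linarith
    · exact h
  set N := d.1 * d.1 + d.2 * d.2 with hNd
  let f : Fin n → ℝ := fun x => d.1 * (v x).1 + d.2 * (v x).2
  obtain ⟨M, hM⟩ := Finite.exists_max f
  obtain ⟨u, w, huw, hadj⟩ := cyc_deg hn M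
  have hu : (cyc n).Adj M u := (hadj u).2 (Or.inl rfl)
  have hw : (cyc n).Adj M w := (hadj w).2 (Or.inr rfl)
  -- all points are on the line through `M` with direction `d`
  have hline : ∀ x : Fin n, N * ((v x).1 - (v M).1) = (f x - f M) * d.1 ∧
      N * ((v x).2 - (v M).2) = (f x - f M) * d.2 := by
    intro x
    have h1 := hcon a b x
    have h2 := hcon a b M
    have h3 : d.1 * ((v x).2 - (v M).2) - d.2 * ((v x).1 - (v M).1) = 0 := by
      unfold cr at h1 h2
      simp only [hd]
      linarith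
    constructor
    · have : N * ((v x).1 - (v M).1) - (f x - f M) * d.1 =
          - d.2 * (d.1 * ((v x).2 - (v M).2) - d.2 * ((v x).1 - (v M).1)) := by
        simp only [hNd, f]; ring
      rw [h3] at this; linarith
    · have : N * ((v x).2 - (v M).2) - (f x - f M) * d.2 =
          d.1 * (d.1 * ((v x).2 - (v M).2) - d.2 * ((v x).1 - (v M).1)) := by
        simp only [hNd, f]; ring
      rw [h3] at this; linarith
  have hinj : ∀ x y : Fin n, f x = f y → x = y := by
    intro x y h
    obtain ⟨x1, x2⟩ := hline x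
    obtain ⟨y1, y2⟩ := hline y
    rw [h] at x1 x2
    refine Fin.ext (hs.inj x x.2 y y.2 (Prod.ext ?_ ?_))
    · have := mul_left_cancel₀ hN.ne' (x1.trans y1.symm)
      linarith
    · have := mul_left_cancel₀ hN.ne' (x2.trans y2.symm)
      linarith
  have key : ∀ u w : Fin n, (cyc n).Adj M w → f w < f u → f u < f M → False := by
    intro u w hw h1 h2
    refine hpl.1 M w u hw ⟨(f M - f u) / (f M - f w), div_pos (by linarith) (by linarith),
      (div_lt_one (by linarith)).2 (by linarith), ?_⟩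
    obtain ⟨x1, x2⟩ := hline u
    obtain ⟨y1, y2⟩ := hline w
    have hMw : f M - f w ≠ 0 := by
      have : 0 < f M - f w := by linarith
      exact this.ne'
    have k1 : (v u).1 - (v M).1 = (f u - f M) * d.1 / N := by
      rw [eq_div_iff hN.ne']; linarith
    have k2 : (v u).2 - (v M).2 = (f u - f M) * d.2 / N := by
      rw [eq_div_iff hN.ne']; linarith
    have l1 : (v w).1 - (v M).1 = (f w - f M) * d.1 / N := by
      rw [eq_div_iff hN.ne']; linarith
    have l2 : (v w).2 - (v M).2 = (f w - f M) * d.2 / N := by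
      rw [eq_div_iff hN.ne']; linarith
    have c1 : (v u).1 - (v M).1 = (f M - f u) / (f M - f w) * ((v w).1 - (v M).1) := by
      rw [k1, l1]; field_simp; ring
    have c2 : (v u).2 - (v M).2 = (f M - f u) / (f M - f w) * ((v w).2 - (v M).2) := by
      rw [k2, l2]; field_simp; ring
    ext
    · simp only [ln]; linarith
    · simp only [ln]; linarith
  have hfu : f u < f M := lt_of_le_of_ne (hM u) (fun h => hu.ne (hinj _ _ h).symm)
  have hfw : f w < f M := lt_of_le_of_ne (hM w) (fun h => hw.ne (hinj _ _ h).symm)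
  rcases lt_trichotomy (f u) (f w) with h | h | h
  · exact key w u hu h hfw
  · exact huw (hinj _ _ h)
  · exact key u w hw h hfu

section
variable {ι : Type} {P : ι → ℝ × ℝ} {G H : SimpleGraph ι}

theorem outer_le (h2 : S_SEC2) [Finite ι] (hG : MaxPlane P G)
    (hnc : ∃ a b c, cr (P a) (P b) (P c) ≠ 0) : (outer P G).ncard ≤ Nat.card ι := by
  have hinj : Set.InjOn Prod.fst (outer P G) := by
    rintro ⟨a, b⟩ ⟨hab, h1⟩ ⟨a', c⟩ ⟨hac, h3⟩ h
    simp only at hab h1 hac h3 h
    subst h
    have hba : P b ≠ P a := fun h => hab.ne (hG.inj h).symm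
    have hca : P c ≠ P a := fun h => hac.ne (hG.inj h).symm
    have h0 : cr (P a) (P b) (P c) = 0 := by
      have := h3 b
      rw [cr_swap] at this
      linarith [h1 c]
    have h0' : cr (P a) (P c) (P b) = 0 := by rw [cr_swap, h0, neg_zero]
    have hx : ∃ x, cr (P a) (P b) (P x) ≠ 0 := by
      by_contra hcon
      push Not at hcon
      obtain ⟨x, y, z, hxyz⟩ := hnc
      apply hxyz
      have e1 := par_trans hba (hcon x) (hcon y)
      have e2 := par_trans hba (hcon y) (hcon z)
      have e3 := par_trans hba (hcon x) (hcon z)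
      unfold cr at e1 e2 e3 ⊢
      linarith
    obtain ⟨x, hx⟩ := hx
    have hx1 : cr (P a) (P b) (P x) < 0 := lt_of_le_of_ne (h1 x) hx
    have hx2 : cr (P a) (P c) (P x) < 0 := by
      refine lt_of_le_of_ne (h3 x) (fun h => hx ?_)
      exact par_trans hca h0' h
    have : b = c := by
      refine h2 ι P G hG a b c hab hac h0
        ⟨(2 * (P a).1 - (P x).1, 2 * (P a).2 - (P x).2), ?_, ?_⟩
      · unfold cr at hx1 ⊢
        simp only
        linarith
      · unfold cr at hx2 ⊢
        simp only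
        linarith
    rw [this]
  rw [← Set.ncard_image_of_injOn hinj, ← Set.ncard_univ]
  exact Set.ncard_le_ncard (Set.subset_univ _) (Set.toFinite _)

theorem inner_sub_clean (hG : MaxPlane P G) (hGH : H ≤ G) : inner G H ⊆ clean P H := by
  rintro ⟨a, b⟩ ⟨h1, h2⟩
  refine ⟨h1.ne, h2, fun c => hG.vtx a b c h1, fun c d z hcd hz hz' => ?_⟩
  rcases hG.noX a b c d z h1 (hGH hcd) hz hz' with ⟨rfl, rfl⟩ | ⟨rfl, rfl⟩
  · exact h2 hcd
  · exact h2 hcd.symm

end

/-- the upper bound with straight angles -/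
theorem upper2 (he : S_EUL) (h2 : S_SEC2) (hn : 3 ≤ n) (hs : IsSimple n v) :
    numMixed n v ≤ (n - 2) * (n - 3) / 2 := by
  have hpos : 0 < n := by omega
  have : Nonempty (Fin n) := ⟨⟨0, hpos⟩⟩
  obtain ⟨G, hHG, hG⟩ := ex_max (P := fun i : Fin n => v i)
    (fun a b h => Fin.ext (hs.inj a a.2 b b.2 h)) (plane_cyc hn hs)
  have a1 := he (Fin n) _ G hG
  have a2 := inner_add hHG (cyc_deg hn)
  have a3 := outer_le h2 hG (not_line hn hs)
  have a4 := Set.ncard_le_ncard (inner_sub_clean hG hHG) (Set.toFinite _)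
  have hc := count_le (v := v) hn
  rw [Nat.card_fin] at a1 a2 a3
  obtain ⟨m, rfl⟩ := Nat.exists_eq_add_of_le hn
  rw [Nat.add_sub_cancel_left, show 3 + m - 2 = m + 1 by omega,
    Nat.le_div_iff_mul_le (by norm_num)]
  nlinarith

end Pool.Agent.K6.H22.PG
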