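import Mathlib

/-!
Maximal plane straight-line graphs on a finite set of points of the plane (used for the exact
maximum of the number of the mixed diagonals of a simple polygon, `MP_773b78_co`): definitions.
-/

set_option autoImplicit false

namespace Pool.Agent.K6.H22.PG

/-- twice the signed area of the triangle `p q r`: positive iff `r` is strictly left of `p → q` -/
def cr (p q r : ℝ × ℝ) : ℝ := (q.1 - p.1) * (r.2 - p.2) - (q.2 - p.2) * (r.1 - p.1)

/-- the point `(1 - t) p + t q` -/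
def ln (p q : ℝ × ℝ) (t : ℝ) : ℝ × ℝ := ((1 - t) * p.1 + t * q.1, (1 - t) * p.2 + t * q.2)

/-- `z` is in the open segment `p q` -/
def OS (p q z : ℝ × ℝ) : Prop := ∃ t : ℝ, 0 < t ∧ t < 1 ∧ z = ln p q t

/-- `φ` is affine -/
def Aff (φ : ℝ × ℝ → ℝ) : Prop := ∀ p q t, φ (ln p q t) = (1 - t) * φ p + t * φ q

/-- `G` is a maximal plane straight-line graph on the points `P i` -/
structure MaxPlane {ι : Type} (P : ι → ℝ × ℝ) (G : SimpleGraph ι) : Prop where
  inj : Function.Injective P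
  vtx : ∀ a b c, G.Adj a b → ¬ OS (P a) (P b) (P c)
  noX : ∀ a b c d z, G.Adj a b → G.Adj c d → OS (P a) (P b) z → OS (P c) (P d) z →
    (a = c ∧ b = d) ∨ (a = d ∧ b = c)
  maxl : ∀ a b, a ≠ b → (∀ c, ¬ OS (P a) (P b) (P c)) →
    (∀ c d z, G.Adj c d → OS (P a) (P b) z → OS (P c) (P d) z → False) → G.Adj a b

/-- `a b c` is an empty triangle of `G`, counterclockwise: no other point is in the closed
triangle -/
def Face {ι : Type} (P : ι → ℝ × ℝ) (G : SimpleGraph ι) (a b c : ι) : Prop :=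
  G.Adj a b ∧ G.Adj b c ∧ G.Adj c a ∧ 0 < cr (P a) (P b) (P c) ∧
    ∀ d, 0 ≤ cr (P a) (P b) (P d) → 0 ≤ cr (P b) (P c) (P d) → 0 ≤ cr (P c) (P a) (P d) →
      d = a ∨ d = b ∨ d = c

/-! ### Algebra -/

theorem ln_zero (p q : ℝ × ℝ) : ln p q 0 = p := by simp [ln]
theorem ln_one (p q : ℝ × ℝ) : ln p q 1 = q := by simp [ln]
theorem ln_swap (p q : ℝ × ℝ) (t : ℝ) : ln q p t = ln p q (1 - t) := by
  ext <;> simp only [ln] <;> ring
theorem ln_self (p : ℝ × ℝ) (t : ℝ) : ln p p t = p := by ext <;> simp only [ln] <;> ring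
theorem ln_ln (p q : ℝ × ℝ) (s t r : ℝ) :
    ln (ln p q s) (ln p q t) r = ln p q ((1 - r) * s + r * t) := by
  ext <;> simp only [ln] <;> ring

theorem OS_comm {p q z : ℝ × ℝ} (h : OS p q z) : OS q p z := by
  obtain ⟨t, h0, h1, rfl⟩ := h
  exact ⟨1 - t, by linarith, by linarith, by rw [ln_swap q p]⟩

theorem OS_iff {p q z : ℝ × ℝ} : OS p q z ↔ z ∈ openSegment ℝ p q := by
  rw [openSegment_eq_image]
  constructor
  · rintro ⟨t, h0, h1, rfl⟩
    exact ⟨t, ⟨h0, h1⟩, by ext <;> simp [ln]⟩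
  · rintro ⟨t, ⟨h0, h1⟩, rfl⟩
    exact ⟨t, h0, h1, by ext <;> simp [ln]⟩

theorem seg_iff {p q z : ℝ × ℝ} : z ∈ segment ℝ p q ↔ ∃ t : ℝ, 0 ≤ t ∧ t ≤ 1 ∧ z = ln p q t := by
  rw [segment_eq_image]
  constructor
  · rintro ⟨t, ⟨h0, h1⟩, rfl⟩
    exact ⟨t, h0, h1, by ext <;> simp [ln]⟩
  · rintro ⟨t, h0, h1, rfl⟩
    exact ⟨t, ⟨h0, h1⟩, by ext <;> simp [ln]⟩

theorem cr_rot (p q r : ℝ × ℝ) : cr q r p = cr p q r := by unfold cr; ring
theorem cr_swap (p q r : ℝ × ℝ) : cr p r q = -cr p q r := by unfold cr; ring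
theorem cr_swap' (p q r : ℝ × ℝ) : cr q p r = -cr p q r := by unfold cr; ring
@[simp] theorem cr_self (p q : ℝ × ℝ) : cr p q q = 0 := by unfold cr; ring
@[simp] theorem cr_self' (p q : ℝ × ℝ) : cr p q p = 0 := by unfold cr; ring
@[simp] theorem cr_self'' (p q : ℝ × ℝ) : cr p p q = 0 := by unfold cr; ring

theorem aff3 (p q : ℝ × ℝ) : Aff (fun z => cr p q z) := by
  intro a b t; simp only [cr, ln]; ring
theorem aff2 (p q : ℝ × ℝ) : Aff (fun z => cr p z q) := by
  intro a b t; simp only [cr, ln]; ring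
theorem Aff.div {φ : ℝ × ℝ → ℝ} (h : Aff φ) (D : ℝ) : Aff (fun z => φ z / D) := by
  intro a b t; simp only [h a b t]; ring
theorem Aff.comb {φ ψ : ℝ × ℝ → ℝ} (h : Aff φ) (h' : Aff ψ) (s t : ℝ) :
    Aff (fun z => s * φ z + t * ψ z) := by
  intro a b r; simp only [h a b r, h' a b r]; ring

/-- the identity `(q × r) p + (r × p) q + (p × q) r = 0` for vectors based at `o` -/
theorem cr_id (o p q r x : ℝ × ℝ) :
    cr o q r * cr o p x + cr o r p * cr o q x + cr o p q * cr o r x = 0 := by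
  unfold cr; ring

/-- sum of the three sub-triangles -/
theorem cr_sum (a b c d : ℝ × ℝ) : cr a b d + cr b c d + cr c a d = cr a b c := by
  unfold cr; ring

theorem Face.rot {ι : Type} {P : ι → ℝ × ℝ} {G : SimpleGraph ι} {a b c : ι}
    (h : Face P G a b c) : Face P G b c a := by
  obtain ⟨h1, h2, h3, h4, h5⟩ := h
  refine ⟨h2, h3, h1, by rw [cr_rot]; exact h4, fun d d1 d2 d3 => ?_⟩
  rcases h5 d d3 d1 d2 with h | h | h
  · exact Or.inr (Or.inr h)
  · exact Or.inl h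
  · exact Or.inr (Or.inl h)

/-- Walls: let `α, γ, φ` be affine, `α, γ > 0` at `w`, `φ y ≤ φ w`, and not `α, γ > 0` at `y`. Then
the segment from `w` to `y` contains a point `e ≠ w` with `α, γ ≥ 0`, one of them zero, and
`φ e ≤ φ w`. -/
theorem wall {α γ φ : ℝ × ℝ → ℝ} (hα : Aff α) (hγ : Aff γ) (hφ : Aff φ) {w y : ℝ × ℝ}
    (h1 : 0 < α w) (h2 : 0 < γ w) (h3 : φ y ≤ φ w) (h4 : ¬ (0 < α y ∧ 0 < γ y)) :
    ∃ t : ℝ, 0 < t ∧ t ≤ 1 ∧ 0 ≤ α (ln w y t) ∧ 0 ≤ γ (ln w y t) ∧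
      (α (ln w y t) = 0 ∨ γ (ln w y t) = 0) ∧ φ (ln w y t) ≤ φ w := by
  have hphi : ∀ t : ℝ, 0 ≤ t → t ≤ 1 → φ (ln w y t) ≤ φ w := by
    intro t h0 h1
    rw [hφ]
    nlinarith
  by_cases ha : α y ≤ 0
  · -- zero of `α`
    have hd : 0 < α w - α y := by linarith
    have ht0 : 0 < α w / (α w - α y) := div_pos h1 hd
    have ht1 : α w / (α w - α y) ≤ 1 := by rw [div_le_one hd]; linarith
    set t := α w / (α w - α y) with ht
    have hz : α (ln w y t) = 0 := by
      rw [hα, ht]; field_simp; ring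
    by_cases hg : 0 ≤ γ (ln w y t)
    · exact ⟨t, ht0, ht1, hz.ge, hg, Or.inl hz, hphi t ht0.le ht1⟩
    · push Not at hg
      have hd' : 0 < γ w - γ (ln w y t) := by linarith
      set r := γ w / (γ w - γ (ln w y t)) with hr
      have hr0 : 0 < r := div_pos h2 hd'
      have hr1 : r < 1 := by rw [hr, div_lt_one hd']; linarith
      have he : ln w y (r * t) = ln w (ln w y t) r := by
        ext <;> simp only [ln] <;> ring
      have hgz : γ (ln w y (r * t)) = 0 := by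
        rw [he, hγ]
        rw [hr]; field_simp; ring
      have haz : 0 ≤ α (ln w y (r * t)) := by
        rw [he, hα, hz]; nlinarith
      exact ⟨r * t, by positivity, by nlinarith, haz, hgz.ge, Or.inr hgz,
        hphi _ (by positivity) (by nlinarith)⟩
  · push Not at ha
    have hg : γ y ≤ 0 := by
      by_contra h
      exact h4 ⟨ha, not_le.1 h⟩
    have hd : 0 < γ w - γ y := by linarith
    have ht0 : 0 < γ w / (γ w - γ y) := div_pos h2 hd
    have ht1 : γ w / (γ w - γ y) ≤ 1 := by rw [div_le_one hd]; linarith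
    set t := γ w / (γ w - γ y) with ht
    have hz : γ (ln w y t) = 0 := by
      rw [hγ, ht]; field_simp; ring
    have haz : 0 ≤ α (ln w y t) := by
      rw [hα]; nlinarith
    exact ⟨t, ht0, ht1, haz, hz.ge, Or.inr hz, hphi t ht0.le ht1⟩

end Pool.Agent.K6.H22.PG
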