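import Pool.Agent.K6.H22.PG.Stm

/-!
Maximal plane straight-line graphs: the count of the faces by an acyclic orientation (piece EUL).
-/

set_option autoImplicit false

namespace Pool.Agent.K6.H22.PG

/-- the height function -/
def hf (t : ℝ) (u : ℝ × ℝ) : ℝ := u.1 + t * u.2

theorem hf_aff (t : ℝ) : Aff (hf t) := by
  intro p q s
  simp only [hf, ln]
  ring

theorem exists_hf {ι : Type} [Finite ι] (P : ι → ℝ × ℝ) (hP : Function.Injective P) :
    ∃ t : ℝ, Function.Injective fun i => hf t (P i) := by
  classical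
  have hfin : (Set.range fun p : ι × ι => -((P p.1).1 - (P p.2).1) / ((P p.1).2 - (P p.2).2)).Finite :=
    Set.finite_range _
  obtain ⟨t, ht⟩ := hfin.exists_notMem
  refine ⟨t, fun i j hij => ?_⟩
  by_contra hne
  have hij' : (P i).1 + t * (P i).2 = (P j).1 + t * (P j).2 := hij
  by_cases h2 : (P i).2 = (P j).2
  · rw [h2] at hij'
    exact hne (hP (Prod.ext (by linarith) h2))
  · apply ht
    refine ⟨(i, j), ?_⟩
    have h3 : (P i).2 - (P j).2 ≠ 0 := sub_ne_zero.2 h2
    show -((P i).1 - (P j).1) / ((P i).2 - (P j).2) = t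
    rw [div_eq_iff h3]
    linarith

theorem exists_up (hv : S_VIS) {ι : Type} [Finite ι] {P : ι → ℝ × ℝ} {G : SimpleGraph ι}
    (h : MaxPlane P G) (t : ℝ) (a x : ι) (hx : hf t (P a) < hf t (P x)) :
    ∃ b, G.Adj a b ∧ hf t (P a) < hf t (P b) := by
  by_contra hcon
  push Not at hcon
  obtain ⟨c, hc1, hc2, hc3⟩ := hv ι P G h (P a) (hf t) (hf_aff t) (by
    intro a' b' s hab h0 h1 hm
    rcases h0.eq_or_lt with h0 | h0
    · rw [← h0, ln_zero] at hm
      have := h.inj hm
      subst this
      exact ⟨le_refl _, hcon b' hab⟩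
    · rcases h1.eq_or_lt with h1 | h1
      · rw [h1, ln_one] at hm
        have := h.inj hm
        subst this
        exact ⟨hcon a' hab.symm, le_refl _⟩
      · exact absurd ⟨s, h0, h1, hm⟩ (h.vtx a' b' a hab)) ⟨x, hx⟩
  have hadj : G.Adj a c := by
    refine h.maxl a c ?_ hc2 ?_
    · rintro rfl
      exact lt_irrefl _ hc1
    · intro c' d' z hcd hz1 hz2
      exact hc3 c' d' z hcd hz1 hz2
  exact absurd (hcon c hadj) (not_le.2 hc1)

theorem exists_top {ι : Type} [Finite ι] {P : ι → ℝ × ℝ} {G : SimpleGraph ι}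
    (t : ℝ) (a : ι) (hx : ∃ b, G.Adj a b ∧ hf t (P a) < hf t (P b)) :
    ∃ b, G.Adj a b ∧ hf t (P a) < hf t (P b) ∧
      ∀ x, G.Adj a x → hf t (P a) < hf t (P x) → cr (P a) (P b) (P x) ≤ 0 := by
  classical
  have := Fintype.ofFinite ι
  obtain ⟨b0, hb0⟩ := hx
  obtain ⟨b, hb, hmax⟩ := Finset.exists_max_image
    (Finset.univ.filter fun x => G.Adj a x ∧ hf t (P a) < hf t (P x))
    (fun x => ((P x).2 - (P a).2) / (hf t (P x) - hf t (P a)))
    ⟨b0, by simpa using hb0⟩
  have hb' : G.Adj a b ∧ hf t (P a) < hf t (P b) := by simpa using hb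
  refine ⟨b, hb'.1, hb'.2, fun x hx1 hx2 => ?_⟩
  have h1 := hmax x (by simpa using ⟨hx1, hx2⟩)
  have h2 : 0 < hf t (P x) - hf t (P a) := by linarith
  have h3 : 0 < hf t (P b) - hf t (P a) := by linarith [hb'.2]
  rw [div_le_div_iff₀ h2 h3] at h1
  have h4 : cr (P a) (P b) (P x) = ((P x).2 - (P a).2) * (hf t (P b) - hf t (P a))
      - ((P b).2 - (P a).2) * (hf t (P x) - hf t (P a)) := by
    simp only [cr, hf]
    ring
  rw [h4]
  linarith

theorem piece_EUL (hv : S_VIS) (hf' : S_FACE) (h3 : S_SEC3) : S_EUL := by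
  classical
  intro ι _ _ P G h
  have := Fintype.ofFinite ι
  obtain ⟨t, ht⟩ := exists_hf P h.inj
  -- the height
  set f : ι → ℝ := fun i => hf t (P i) with hfd
  obtain ⟨a0, ha0⟩ := Finite.exists_max f
  have hlt : ∀ a, a ≠ a0 → f a < f a0 := fun a ha =>
    lt_of_le_of_ne (ha0 a) fun hh => ha (ht hh)
  -- the topmost up-neighbours
  have htop : ∀ a, a ≠ a0 → ∃ b, G.Adj a b ∧ f a < f b ∧
      ∀ x, G.Adj a x → f a < f x → cr (P a) (P b) (P x) ≤ 0 := fun a ha =>
    exists_top t a (exists_up hv h t a a0 (hlt a ha))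
  choose! top htop1 htop2 htop3 using htop
  -- the finsets
  set D : Finset (ι × ι) := Finset.univ.filter fun p => G.Adj p.1 p.2 with hD
  set O : Finset (ι × ι) := Finset.univ.filter fun p => p ∈ outer P G with hO
  set F : Finset (ι × ι × ι) := Finset.univ.filter fun p => Face P G p.1 p.2.1 p.2.2 with hF
  set F1 : Finset (ι × ι × ι) := F.filter fun p => f p.1 < f p.2.1 ∧ f p.1 < f p.2.2 with hF1
  set U : Finset (ι × ι) := D.filter fun p => f p.1 < f p.2 with hU
  have cD : (darts G).ncard = D.card := by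
    rw [← Set.ncard_coe_finset]
    congr 1
    ext p
    simp [hD, darts]
  have cO : (outer P G).ncard = O.card := by
    rw [← Set.ncard_coe_finset]
    congr 1
    ext p
    simp [hO]
  -- (a)
  have hA : D.card ≤ O.card + F.card := by
    have hsub : D \ O ⊆ F.image fun p => (p.1, p.2.1) := by
      intro p hp
      rw [Finset.mem_sdiff] at hp
      obtain ⟨hp1, hp2⟩ := hp
      have hp1' : G.Adj p.1 p.2 := by simpa [hD] using hp1
      have hx : ∃ x, 0 < cr (P p.1) (P p.2) (P x) := by
        by_contra hcon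
        push Not at hcon
        exact hp2 (by
          rw [hO, Finset.mem_filter]
          exact ⟨Finset.mem_univ _, hp1', hcon⟩)
      obtain ⟨c, hc⟩ := hf' ι P G h p.1 p.2 hp1' hx
      rw [Finset.mem_image]
      exact ⟨(p.1, p.2, c), by rw [hF, Finset.mem_filter]; exact ⟨Finset.mem_univ _, hc⟩, rfl⟩
    have h1 := (Finset.card_le_card hsub).trans Finset.card_image_le
    have h2 := Finset.le_card_sdiff O D
    omega
  -- (b)
  have hB : F.card ≤ 3 * F1.card := by
    have hsub : F ⊆ F1 ∪ (F1.image fun p => (p.2.2, p.1, p.2.1)) ∪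
        (F1.image fun p => (p.2.1, p.2.2, p.1)) := by
      rintro ⟨a, b, c⟩ hp
      have hface : Face P G a b c := by
        rw [hF, Finset.mem_filter] at hp
        exact hp.2
      have hab : f a ≠ f b := fun hh => hface.1.ne (ht hh)
      have hbc : f b ≠ f c := fun hh => hface.2.1.ne (ht hh)
      have hca : f c ≠ f a := fun hh => hface.2.2.1.ne (ht hh)
      have memF : ∀ a b c : ι, Face P G a b c → (a, b, c) ∈ F := fun a b c hh => by
        rw [hF, Finset.mem_filter]
        exact ⟨Finset.mem_univ _, hh⟩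
      rw [Finset.mem_union, Finset.mem_union, Finset.mem_image, Finset.mem_image]
      rcases lt_or_gt_of_ne hab with h1 | h1
      · rcases lt_or_gt_of_ne hca with h2 | h2
        · -- c < a < b
          refine Or.inr ⟨(c, a, b), ?_, rfl⟩
          rw [hF1, Finset.mem_filter]
          exact ⟨memF _ _ _ hface.rot.rot, h2, h2.trans h1⟩
        · refine Or.inl (Or.inl ?_)
          rw [hF1, Finset.mem_filter]
          exact ⟨memF _ _ _ hface, h1, h2⟩
      · rcases lt_or_gt_of_ne hbc with h2 | h2
        · -- b < a, b < c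
          refine Or.inl (Or.inr ⟨(b, c, a), ?_, rfl⟩)
          rw [hF1, Finset.mem_filter]
          exact ⟨memF _ _ _ hface.rot, h2, h1⟩
        · -- c < b < a
          refine Or.inr ⟨(c, a, b), ?_, rfl⟩
          rw [hF1, Finset.mem_filter]
          exact ⟨memF _ _ _ hface.rot.rot, h2.trans h1, h2⟩
    have h1 := Finset.card_le_card hsub
    have h2 := Finset.card_union_le (F1 ∪ (F1.image fun p => (p.2.2, p.1, p.2.1)))
      (F1.image fun p => (p.2.1, p.2.2, p.1))
    have h3 := Finset.card_union_le F1 (F1.image fun p => (p.2.2, p.1, p.2.1))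
    have h4 : (F1.image fun p => (p.2.2, p.1, p.2.1)).card ≤ F1.card := Finset.card_image_le
    have h5 : (F1.image fun p => (p.2.1, p.2.2, p.1)).card ≤ F1.card := Finset.card_image_le
    omega
  -- (c)
  have hC : F1.card + (Fintype.card ι - 1) ≤ U.card := by
    set I1 : Finset (ι × ι) := F1.image fun p => (p.1, p.2.1) with hI1
    set I2 : Finset (ι × ι) := (Finset.univ.erase a0).image fun a => (a, top a) with hI2
    have c1 : I1.card = F1.card := by
      rw [hI1]
      apply Finset.card_image_of_injOn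
      rintro ⟨a, b, c⟩ hp ⟨a', b', c'⟩ hp' heq
      simp only [Prod.mk.injEq] at heq
      obtain ⟨rfl, rfl⟩ := heq
      have hp1 := (Finset.mem_filter.1 (Finset.mem_filter.1 hp).1).2
      have hp2 := (Finset.mem_filter.1 (Finset.mem_filter.1 hp').1).2
      rw [h3 ι P G h a b c c' hp1 hp2]
    have c2 : I2.card = Fintype.card ι - 1 := by
      rw [hI2, Finset.card_image_of_injective _ fun a b hab => (Prod.mk.inj hab).1,
        Finset.card_erase_of_mem (Finset.mem_univ _), Finset.card_univ]
    have hdis : Disjoint I1 I2 := by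
      rw [Finset.disjoint_left]
      intro p hp1 hp2
      rw [hI1, Finset.mem_image] at hp1
      rw [hI2, Finset.mem_image] at hp2
      obtain ⟨⟨a, b, c⟩, habc, rfl⟩ := hp1
      obtain ⟨a', ha', heq⟩ := hp2
      simp only [Prod.mk.injEq] at heq
      obtain ⟨rfl, rfl⟩ := heq
      have hne : a' ≠ a0 := Finset.ne_of_mem_erase ha'
      rw [hF1, Finset.mem_filter] at habc
      have hface : Face P G a' (top a') c := (Finset.mem_filter.1 habc.1).2
      have h1 := htop3 a' hne c hface.2.2.1.symm habc.2.2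
      exact absurd h1 (not_le.2 hface.2.2.2.1)
    have hsub : I1 ∪ I2 ⊆ U := by
      intro p hp
      rw [Finset.mem_union] at hp
      rw [hU, Finset.mem_filter, hD, Finset.mem_filter]
      rcases hp with hp | hp
      · rw [hI1, Finset.mem_image] at hp
        obtain ⟨⟨a, b, c⟩, habc, rfl⟩ := hp
        rw [hF1, Finset.mem_filter] at habc
        have hface : Face P G a b c := (Finset.mem_filter.1 habc.1).2
        exact ⟨⟨Finset.mem_univ _, hface.1⟩, habc.2.1⟩
      · rw [hI2, Finset.mem_image] at hp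
        obtain ⟨a, ha, rfl⟩ := hp
        have hne : a ≠ a0 := Finset.ne_of_mem_erase ha
        exact ⟨⟨Finset.mem_univ _, htop1 a hne⟩, htop2 a hne⟩
    have h1 := Finset.card_le_card hsub
    rw [Finset.card_union_of_disjoint hdis, c1, c2] at h1
    exact h1
  -- (d)
  have hDU : 2 * U.card ≤ D.card := by
    have c1 : (U.image Prod.swap).card = U.card :=
      Finset.card_image_of_injective _ Prod.swap_injective
    have hdis : Disjoint U (U.image Prod.swap) := by
      rw [Finset.disjoint_left]
      intro p hp1 hp2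
      rw [Finset.mem_image] at hp2
      obtain ⟨q, hq, rfl⟩ := hp2
      rw [hU, Finset.mem_filter] at hp1 hq
      exact lt_asymm hp1.2 hq.2
    have hsub : U ∪ U.image Prod.swap ⊆ D := by
      intro p hp
      rw [Finset.mem_union] at hp
      rcases hp with hp | hp
      · exact (Finset.mem_filter.1 hp).1
      · rw [Finset.mem_image] at hp
        obtain ⟨q, hq, rfl⟩ := hp
        have h1 := (Finset.mem_filter.1 (Finset.mem_filter.1 hq).1).2
        rw [hD, Finset.mem_filter]
        exact ⟨Finset.mem_univ _, h1.symm⟩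
    have h1 := Finset.card_le_card hsub
    rw [Finset.card_union_of_disjoint hdis, c1] at h1
    omega
  have hn : 0 < Fintype.card ι := Fintype.card_pos
  rw [cD, cO, Nat.card_eq_fintype_card]
  omega

end Pool.Agent.K6.H22.PG
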