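import Pool.Agent.K6.H22.PG.Vis

/-!
FACE: the empty triangle to the left of an edge.
-/

set_option autoImplicit false

namespace Pool.Agent.K6.H22.PG

open Set

/-- the half `m A c` of the triangle -/
theorem half {ι : Type} [Finite ι] {P : ι → ℝ × ℝ} {G : SimpleGraph ι} (hM : MaxPlane P G)
    {A B : ι} (hAB : G.Adj A B) {m : ℝ × ℝ} (hm : m = ln (P A) (P B) (1 / 2))
    {f : ℝ × ℝ → ℝ} (hf : Aff f) (hfm : f m = 0) (hfA : f (P A) = 0) {c : ι} (hc : 0 < f (P c))
    (hs : Seen P G m c) (hmin : ∀ d, 0 < f (P d) → Seen P G m d → f (P c) ≤ f (P d)) :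
    (∀ u, u ≠ A → u ≠ c → 0 ≤ cr m (P u) (P c) / cr m (P A) (P c) →
      0 ≤ cr m (P A) (P u) / cr m (P A) (P c) →
      cr m (P u) (P c) / cr m (P A) (P c) + cr m (P A) (P u) / cr m (P A) (P c) ≤ 1 → False) ∧
    G.Adj A c := by
  have hPAB : P A ≠ P B := fun h => hAB.ne (hM.inj h)
  have hmOS : OS (P A) (P B) m := ⟨1 / 2, by norm_num, by norm_num, hm⟩
  have hmv : ∀ d, m ≠ P d := by
    rintro d rfl
    exact hM.vtx A B d hAB hmOS
  have hD : cr m (P A) (P c) ≠ 0 := by
    intro h0
    obtain ⟨l, hl⟩ := collinear_ln (hmv A) h0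
    rw [hl, hf, hfm, hfA] at hc
    simp at hc
  obtain ⟨al, hal⟩ : ∃ al : ℝ × ℝ → ℝ, al = fun u => cr m u (P c) / cr m (P A) (P c) := ⟨_, rfl⟩
  obtain ⟨ga, hga⟩ : ∃ ga : ℝ × ℝ → ℝ, ga = fun u => cr m (P A) u / cr m (P A) (P c) := ⟨_, rfl⟩
  have affal : Aff al := by rw [hal]; exact (aff2 _ _).div _
  have affga : Aff ga := by rw [hga]; exact (aff3 _ _).div _
  have alA : al (P A) = 1 := by rw [hal]; exact div_self hD
  have alm : al m = 0 := by simp [hal]
  have alc : al (P c) = 0 := by simp [hal]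
  have gaA : ga (P A) = 0 := by simp [hga]
  have gam : ga m = 0 := by simp [hga]
  have gac : ga (P c) = 1 := by rw [hga]; exact div_self hD
  have hext : ∀ u v, al u = al v → ga u = ga v → u = v := by
    intro u v h1 h2
    rw [hal] at h1
    rw [hga] at h2
    refine coord_ext hD ?_ ?_
    · field_simp at h1
      exact h1
    · field_simp at h2
      exact h2
  have hfu : ∀ u, f u = ga u * f (P c) := by
    intro u
    have h1 := bary hf hD u
    rw [hfm, hfA] at h1
    rw [hga, h1]
    ring
  -- the line `A B`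
  have gaB : ga (P B) = 0 := by
    have h1 := affga (P A) (P B) (1 / 2)
    rw [← hm, gam, gaA] at h1
    linarith
  have gaAB : ∀ w x y, OS (P x) (P y) w → (x = A ∧ y = B) ∨ (x = B ∧ y = A) → ga w = 0 := by
    rintro w x y ⟨t, _, _, rfl⟩ (⟨rfl, rfl⟩ | ⟨rfl, rfl⟩)
    · rw [affga, gaA, gaB]; ring
    · rw [affga, gaA, gaB]; ring
  let φ : ℝ × ℝ → ℝ := fun u => al u + ga u
  have hφ : ∀ u, φ u = al u + ga u := fun u => rfl
  have affφ : Aff φ := by
    intro p q t
    rw [hφ, hφ, hφ, affal, affga]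
    ring
  -- the endpoints of an edge through a point of the triangle
  have EX : ∀ x y w, G.Adj x y → OS (P x) (P y) w → 0 < al w → 0 < ga w → φ w ≤ 1 →
      φ (P y) ≤ φ w → (0 < al (P y) ∧ 0 < ga (P y)) ∨ (φ w = 1 ∧ (y = A ∨ y = c)) := by
    intro x y w hxy hw aw0 gw0 hw1 hy
    by_contra hcon
    push Not at hcon
    obtain ⟨hcon1, hcon2⟩ := hcon
    have h4 : ¬ (0 < al (P y) ∧ 0 < ga (P y)) := fun h => absurd h.2 (not_lt.2 (hcon1 h.1))
    obtain ⟨t, ht0, ht1, hea, heg, hz0, hφe⟩ := wall affal affga affφ aw0 gw0 hy h4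
    obtain ⟨e, he⟩ : ∃ e, e = ln w (P y) t := ⟨_, rfl⟩
    rw [← he] at hea heg hz0 hφe
    obtain ⟨r, hr0, hr1, hr⟩ := hw
    have hexy : CS (P x) (P y) e := by
      refine ⟨(1 - t) * r + t, by nlinarith, by nlinarith, ?_⟩
      rw [he, hr]
      ext <;> simp only [ln] <;> ring
    have hex : e ≠ P x := by
      intro h
      rw [he, hr] at h
      have hxy' : P x ≠ P y := fun h' => hxy.ne (hM.inj h')
      apply hxy'
      have h5 : 0 < (1 - t) * r + t := by nlinarith
      have e1 := congrArg Prod.fst h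
      have e2 := congrArg Prod.snd h
      simp only [ln] at e1 e2
      ext
      · have : ((1 - t) * r + t) * ((P x).1 - (P y).1) = 0 := by linear_combination -e1
        have := (mul_eq_zero.1 this).resolve_left h5.ne'
        linarith
      · have : ((1 - t) * r + t) * ((P x).2 - (P y).2) = 0 := by linear_combination -e2
        have := (mul_eq_zero.1 this).resolve_left h5.ne'
        linarith
    have hw' : OS (P x) (P y) w := ⟨r, hr0, hr1, hr⟩
    by_cases hge : ga e = 0
    · rw [hφ, hge, add_zero] at hφe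
      have hee : e = ln m (P A) (al e) := by
        apply hext
        · rw [affal, alm, alA]; ring
        · rw [affga, gam, gaA, hge]; ring
      have hal1 : al e ≤ 1 := by linarith
      rcases hal1.eq_or_lt with h5 | h5
      · rw [h5, ln_one] at hee
        rw [hee] at hexy hex
        rcases hM.vtx' hxy hexy with h6 | h6
        · exact hex (by rw [h6])
        · exact (hcon2 (by linarith)).1 h6.symm
      · -- `e` is in the open edge `A B`
        have heAB : OS (P A) (P B) e := by
          refine ⟨(1 - al e) / 2, by linarith, by linarith, ?_⟩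
          conv_lhs => rw [hee, hm]
          ext <;> simp only [ln] <;> ring
        rcases CS_cases hexy with h7 | h7 | h7
        · exact hex h7
        · rw [h7] at heAB
          exact hM.vtx A B y hAB heAB
        · have h8 := hM.noX x y A B e hxy hAB h7 heAB
          have := gaAB w x y hw' h8
          linarith
    · have hae : al e = 0 := hz0.resolve_right hge
      have hgp : 0 < ga e := lt_of_le_of_ne heg (Ne.symm hge)
      rw [hφ, hae, zero_add] at hφe
      have hee : e = ln m (P c) (ga e) := by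
        apply hext
        · rw [affal, alm, alc, hae]; ring
        · rw [affga, gam, gac]; ring
      have hg1 : ga e ≤ 1 := by linarith
      rcases hg1.eq_or_lt with h5 | h5
      · rw [h5, ln_one] at hee
        rw [hee] at hexy hex
        rcases hM.vtx' hxy hexy with h6 | h6
        · exact hex (by rw [h6])
        · exact (hcon2 (by linarith)).2 h6.symm
      · have hemc : OS m (P c) e := ⟨ga e, hgp, h5, hee⟩
        rcases CS_cases hexy with h7 | h7 | h7
        · exact hex h7
        · rw [h7] at hemc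
          exact hs.1 y hemc
        · exact hs.2 x y e hxy hemc h7
  -- one endpoint has small `φ`
  have hend : ∀ x y w, OS (P x) (P y) w → φ (P y) ≤ φ w ∨ φ (P x) ≤ φ w := by
    rintro x y w ⟨r, hr0, hr1, rfl⟩
    rw [affφ]
    by_contra hcon
    push Not at hcon
    nlinarith
  -- no vertex in the open triangle
  have C1 : ∀ u, 0 < al (P u) → 0 < ga (P u) → φ (P u) ≤ 1 → False := by
    intro u0 hu1 hu2 hu3
    let S : Set ι := {u | 0 < al (P u) ∧ 0 < ga (P u) ∧ φ (P u) ≤ 1}
    obtain ⟨d, ⟨hd1, hd2, hd3⟩, hdmin⟩ :=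
      Set.exists_min_image S (fun u => φ (P u)) (Set.toFinite S) ⟨u0, hu1, hu2, hu3⟩
    have hdf : f (P d) < f (P c) := by
      rw [hfu (P d)]
      rw [hφ] at hd3
      nlinarith
    have hdf0 : 0 < f (P d) := by
      rw [hfu (P d)]
      positivity
    have hφd : φ (P d) = al (P d) + ga (P d) := rfl
    have hseen : Seen P G m d := by
      constructor
      · rintro v ⟨s, hs0, hs1, hs⟩
        have av : al (P v) = s * al (P d) := by rw [hs, affal, alm]; ring
        have gv : ga (P v) = s * ga (P d) := by rw [hs, affga, gam]; ring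
        have hφv : φ (P v) = s * φ (P d) := by rw [hφ, av, gv, hφd]; ring
        have hφd0 : 0 < φ (P d) := by rw [hφd]; linarith
        have h1 := hdmin v ⟨by rw [av]; positivity, by rw [gv]; positivity, by
          rw [hφv]
          nlinarith⟩
        rw [hφv] at h1
        nlinarith
      · rintro x y w hxy ⟨s, hs0, hs1, hs⟩ hw
        have av : al w = s * al (P d) := by rw [hs, affal, alm]; ring
        have gv : ga w = s * ga (P d) := by rw [hs, affga, gam]; ring
        have hφv : φ w = s * φ (P d) := by rw [hφ, av, gv, hφd]; ring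
        have hφd0 : 0 < φ (P d) := by rw [hφd]; linarith
        have hlt : φ w < φ (P d) := by rw [hφv]; nlinarith
        have aw0 : 0 < al w := by rw [av]; positivity
        have gw0 : 0 < ga w := by rw [gv]; positivity
        have key : ∀ x y, G.Adj x y → OS (P x) (P y) w → φ (P y) ≤ φ w → False := by
          intro x y hxy hw hy
          rcases EX x y w hxy hw aw0 gw0 (by linarith) hy with h | h
          · have h1 := hdmin y ⟨h.1, h.2, by linarith⟩
            linarith
          · linarith [h.1]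
        rcases hend x y w hw with h | h
        · exact key x y hxy hw h
        · exact key y x hxy.symm (OS_comm hw) h
    have := hmin d hdf0 hseen
    linarith
  have C2 : ∀ u, u ≠ A → u ≠ c → 0 ≤ al (P u) → 0 ≤ ga (P u) → φ (P u) ≤ 1 → False := by
    intro u huA huc h1 h2 h3
    rcases h1.eq_or_lt with h4 | h4
    · have hee : P u = ln m (P c) (ga (P u)) := by
        apply hext
        · rw [affal, alm, alc, ← h4]; ring
        · rw [affga, gam, gac]; ring
      rw [hφ, ← h4, zero_add] at h3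
      rcases h3.eq_or_lt with h5 | h5
      · rw [h5, ln_one] at hee
        exact huc (hM.inj hee)
      · rcases h2.eq_or_lt with h6 | h6
        · rw [← h6, ln_zero] at hee
          exact hmv u hee.symm
        · exact hs.1 u ⟨ga (P u), h6, h5, hee⟩
    · rcases h2.eq_or_lt with h5 | h5
      · have hee : P u = ln m (P A) (al (P u)) := by
          apply hext
          · rw [affal, alm, alA]; ring
          · rw [affga, gam, gaA, ← h5]; ring
        rw [hφ, ← h5, add_zero] at h3
        rcases h3.eq_or_lt with h6 | h6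
        · rw [h6, ln_one] at hee
          exact huA (hM.inj hee)
        · refine hM.vtx A B u hAB ⟨(1 - al (P u)) / 2, by linarith, by linarith, ?_⟩
          conv_lhs => rw [hee, hm]
          ext <;> simp only [ln] <;> ring
      · exact C1 u h4 h5 h3
  refine ⟨fun u huA huc h1 h2 h3 => C2 u huA huc (by rw [hal]; exact h1) (by rw [hga]; exact h2)
    (by rw [hφ, hal, hga]; exact h3), ?_⟩
  -- the edge `A c`
  by_contra hAc
  apply hAc
  have hAc' : A ≠ c := by
    rintro rfl
    rw [hfA] at hc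
    exact lt_irrefl _ hc
  have hOS : ∀ w, OS (P A) (P c) w → 0 < al w ∧ 0 < ga w ∧ φ w = 1 := by
    rintro w ⟨s, hs0, hs1, rfl⟩
    have h1 : al (ln (P A) (P c) s) = 1 - s := by rw [affal, alA, alc]; ring
    have h2 : ga (ln (P A) (P c) s) = s := by rw [affga, gaA, gac]; ring
    refine ⟨by rw [h1]; linarith, by rw [h2]; exact hs0, ?_⟩
    rw [hφ, h1, h2]
    ring
  refine hM.maxl A c hAc' ?_ ?_
  · intro u hu
    obtain ⟨h1, h2, h3⟩ := hOS _ hu
    exact C1 u h1 h2 h3.le
  · intro x y w hxy hw1 hw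
    obtain ⟨aw0, gw0, hw2⟩ := hOS w hw1
    have key : ∀ x y, G.Adj x y → OS (P x) (P y) w → φ (P y) ≤ φ w → y = A ∨ y = c := by
      intro x y hxy hw hy
      rcases EX x y w hxy hw aw0 gw0 hw2.le hy with h | h
      · exact (C1 y h.1 h.2 (by linarith)).elim
      · exact h.2
    have hφAc : ∀ y, y = A ∨ y = c → φ (P y) = 1 := by
      rintro y (rfl | rfl)
      · rw [hφ, alA, gaA, add_zero]
      · rw [hφ, alc, gac, zero_add]
    have both : ∀ x y, G.Adj x y → OS (P x) (P y) w → φ (P y) ≤ φ w →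
        (y = A ∨ y = c) ∧ (x = A ∨ x = c) := by
      intro x y hxy hw hy
      have h1 := key x y hxy hw hy
      refine ⟨h1, key y x hxy.symm (OS_comm hw) ?_⟩
      obtain ⟨r, hr0, hr1, hr⟩ := hw
      have h2 : φ w = (1 - r) * φ (P x) + r * φ (P y) := by rw [hr, affφ]
      rw [hφAc y h1, hw2] at h2
      have h3 : (1 - r) * φ (P x) = (1 - r) * 1 := by linarith
      rw [mul_left_cancel₀ (by linarith) h3, hw2]
    have hfin : ∀ x y, G.Adj x y → (y = A ∨ y = c) → (x = A ∨ x = c) → False := by
      rintro x y hxy (rfl | rfl) (rfl | rfl)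
      · exact hxy.ne rfl
      · exact hAc hxy.symm
      · exact hAc hxy
      · exact hxy.ne rfl
    rcases hend x y w hw with h | h
    · obtain ⟨h1, h2⟩ := both x y hxy hw h
      exact hfin x y hxy h1 h2
    · obtain ⟨h1, h2⟩ := both y x hxy.symm (OS_comm hw) h
      exact hfin x y hxy h2 h1

/-- **FACE.** -/
theorem piece_FACE (hv : S_VIS) : S_FACE := by
  intro ι _ P G hM a b hab ⟨x, hx⟩
  obtain ⟨m, hm⟩ : ∃ m, m = ln (P a) (P b) (1 / 2) := ⟨_, rfl⟩
  obtain ⟨f, hfdef⟩ : ∃ f : ℝ × ℝ → ℝ, f = fun z => cr (P a) (P b) z := ⟨_, rfl⟩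
  have hf : Aff f := by rw [hfdef]; exact aff3 _ _
  have hfa : f (P a) = 0 := by simp [hfdef]
  have hfb : f (P b) = 0 := by simp [hfdef]
  have hfm : f m = 0 := by rw [hm, hf, hfa, hfb]; ring
  have hmOS : OS (P a) (P b) m := ⟨1 / 2, by norm_num, by norm_num, hm⟩
  have hmv : ∀ d, m ≠ P d := by
    rintro d rfl
    exact hM.vtx a b d hab hmOS
  have hvis := hv ι P G hM m f hf (by
    intro c d t hcd h0 h1 ht
    have hcs : CS (P c) (P d) m := ⟨t, h0, h1, ht⟩
    rcases CS_cases hcs with h | h | h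
    · exact absurd h (hmv c)
    · exact absurd h (hmv d)
    · rcases hM.noX c d a b m hcd hab h hmOS with ⟨rfl, rfl⟩ | ⟨rfl, rfl⟩
      · rw [hfa, hfb, hfm]; exact ⟨le_rfl, le_rfl⟩
      · rw [hfa, hfb, hfm]; exact ⟨le_rfl, le_rfl⟩) ⟨x, by
        rw [hfm, hfdef]
        exact hx⟩
  obtain ⟨c0, hc0⟩ := hvis
  rw [hfm] at hc0
  let W : Set ι := {u | 0 < f (P u) ∧ Seen P G m u}
  obtain ⟨c, ⟨hcf, hcs⟩, hcmin⟩ :=
    Set.exists_min_image W (fun u => f (P u)) (Set.toFinite W) ⟨c0, hc0⟩
  have hmin : ∀ d, 0 < f (P d) → Seen P G m d → f (P c) ≤ f (P d) := fun d h1 h2 =>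
    hcmin d ⟨h1, h2⟩
  have hm' : m = ln (P b) (P a) (1 / 2) := by
    rw [hm, ln_swap (P a) (P b)]
    norm_num
  obtain ⟨ca, hca⟩ := half hM hab hm hf hfm hfa hcf hcs hmin
  obtain ⟨cb, hcb⟩ := half hM hab.symm hm' hf hfm hfb hcf hcs hmin
  have hfc : f (P c) = cr (P a) (P b) (P c) := by rw [hfdef]
  refine ⟨c, hab, hcb, hca.symm, by rw [← hfc]; exact hcf, ?_⟩
  intro d h1 h2 h3
  by_contra hcon
  push Not at hcon
  obtain ⟨hda, hdb, hdc⟩ := hcon
  rw [hfc] at hcf
  have Da : cr m (P a) (P c) = -(cr (P a) (P b) (P c) / 2) := by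
    rw [hm]; simp only [cr, ln]; ring
  have Db : cr m (P b) (P c) = cr (P a) (P b) (P c) / 2 := by
    rw [hm]; simp only [cr, ln]; ring
  have ga1 : cr m (P a) (P d) = -(cr (P a) (P b) (P d) / 2) := by
    rw [hm]; simp only [cr, ln]; ring
  have gb1 : cr m (P b) (P d) = cr (P a) (P b) (P d) / 2 := by
    rw [hm]; simp only [cr, ln]; ring
  by_cases hs : 0 ≤ cr m (P d) (P c)
  · refine cb d hdb hdc ?_ ?_ ?_
    · rw [Db]; positivity
    · rw [Db, gb1]; positivity
    · rw [Db, ← add_div, div_le_one (by positivity), gb1]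
      have e2 : cr m (P d) (P c) + cr (P a) (P b) (P d) / 2 + cr (P b) (P c) (P d) =
          cr (P a) (P b) (P c) / 2 := by
        rw [hm]; simp only [cr, ln]; ring
      linarith
  · push Not at hs
    refine ca d hda hdc ?_ ?_ ?_
    · rw [Da]
      exact div_nonneg_of_nonpos hs.le (by linarith)
    · rw [Da, ga1, neg_div_neg_eq]; positivity
    · rw [Da, ← add_div, div_le_one_of_neg (by linarith), ga1]
      have e2 : cr m (P d) (P c) - cr (P a) (P b) (P d) / 2 - cr (P c) (P a) (P d) =
          -(cr (P a) (P b) (P c) / 2) := by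
        rw [hm]; simp only [cr, ln]; ring
      linarith

end Pool.Agent.K6.H22.PG
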