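import Pool.Agent.K6.H22.PG.Stm

/-! Maximal plane straight-line graphs: flips give clean diagonals. -/

set_option autoImplicit false

namespace Pool.Agent.K6.H22.PG

variable {ι : Type} {P : ι → ℝ × ℝ} {G H : SimpleGraph ι}

theorem flip_point {a b r s : ℝ × ℝ} (h1 : 0 < cr a b r) (h2 : 0 < cr b a s)
    (h3 : 0 < cr a s r) (h4 : 0 < cr b r s) :
    0 < cr a s r / (cr a b r + cr b a s) ∧ cr a s r / (cr a b r + cr b a s) < 1 ∧
      ln a b (cr a s r / (cr a b r + cr b a s)) = ln r s (cr a b r / (cr a b r + cr b a s)) := by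
  have hQ : cr a b r + cr b a s = cr a s r + cr b r s := by unfold cr; ring
  have hpos : 0 < cr a b r + cr b a s := by linarith
  refine ⟨div_pos h3 hpos, (div_lt_one hpos).2 (by linarith), ?_⟩
  ext
  · simp only [ln]
    field_simp
    unfold cr
    ring
  · simp only [ln]
    field_simp
    unfold cr
    ring

/-- everything about the flipped diagonal -/
theorem flip_clean (ht : S_TRI) (hG : MaxPlane P G) (hGH : H ≤ G) {a b r s : ι}
    (hH : ¬ H.Adj a b) (F1 : Face P G a b r) (F2 : Face P G b a s)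
    (h3 : 0 < cr (P a) (P s) (P r)) (h4 : 0 < cr (P b) (P r) (P s)) :
    (r, s) ∈ clean P H ∧ ¬ G.Adj r s := by
  have h1 := F1.2.2.2.1
  have h2 := F2.2.2.2.1
  obtain ⟨t0, t1, te⟩ := flip_point h1 h2 h3 h4
  have hpos : 0 < cr (P a) (P b) (P r) + cr (P b) (P a) (P s) := by linarith
  set A := cr (P a) (P b) (P r) with hA
  set B := cr (P b) (P a) (P s) with hB
  have hrs : r ≠ s := by
    rintro rfl
    simp at h3
  have hnG : ¬ G.Adj r s := by
    intro hrs'
    have o1 : OS (P a) (P b) (ln (P r) (P s) (A / (A + B))) := ⟨_, t0, t1, te.symm⟩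
    have o2 : OS (P r) (P s) (ln (P r) (P s) (A / (A + B))) :=
      ⟨_, div_pos h1 hpos, (div_lt_one hpos).2 (by linarith), rfl⟩
    rcases hG.noX a b r s _ F1.1 hrs' o1 o2 with h | h
    · rw [hA, h.1] at h1
      simp at h1
    · rw [hA, h.2] at h1
      simp at h1
  -- position of the points of the diagonal
  have pos : ∀ x : ℝ, 0 < x → x < 1 →
      cr (P a) (P b) (ln (P r) (P s) x) = (1 - x) * A - x * B ∧
      0 < cr (P b) (P r) (ln (P r) (P s) x) ∧ 0 < cr (P r) (P a) (ln (P r) (P s) x) ∧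
      0 < cr (P a) (P s) (ln (P r) (P s) x) ∧ 0 < cr (P s) (P b) (ln (P r) (P s) x) := by
    intro x x0 x1
    have y1 : 0 < 1 - x := by linarith
    refine ⟨?_, ?_, ?_, ?_, ?_⟩
    · rw [hA, hB]; simp only [cr, ln]; ring
    · have : cr (P b) (P r) (ln (P r) (P s) x) = x * cr (P b) (P r) (P s) := by
        simp only [cr, ln]; ring
      rw [this]; exact mul_pos x0 h4
    · have : cr (P r) (P a) (ln (P r) (P s) x) = x * cr (P a) (P s) (P r) := by
        simp only [cr, ln]; ring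
      rw [this]; exact mul_pos x0 h3
    · have : cr (P a) (P s) (ln (P r) (P s) x) = (1 - x) * cr (P a) (P s) (P r) := by
        simp only [cr, ln]; ring
      rw [this]; exact mul_pos y1 h3
    · have : cr (P s) (P b) (ln (P r) (P s) x) = (1 - x) * cr (P b) (P r) (P s) := by
        simp only [cr, ln]; ring
      rw [this]; exact mul_pos y1 h4
  refine ⟨⟨hrs, fun h => hnG (hGH h), ?_, ?_⟩, hnG⟩
  · rintro d ⟨x, x0, x1, hx⟩
    obtain ⟨p1, p2, p3, p4, p5⟩ := pos x x0 x1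
    rw [← hx] at p1 p2 p3 p4 p5
    by_cases hc : 0 ≤ cr (P a) (P b) (P d)
    · rcases F1.2.2.2.2 d hc p2.le p3.le with rfl | rfl | rfl
      · simp at p3
      · simp at p2
      · simp at p2
    · have hc' : 0 ≤ cr (P b) (P a) (P d) := by
        rw [cr_swap']; linarith
      rcases F2.2.2.2.2 d hc' p4.le p5.le with rfl | rfl | rfl
      · simp at p5
      · simp at p4
      · simp at p4
  · rintro c d z hcd ⟨x, x0, x1, rfl⟩ hz
    obtain ⟨p1, p2, p3, p4, p5⟩ := pos x x0 x1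
    rcases lt_trichotomy (cr (P a) (P b) (ln (P r) (P s) x)) 0 with hc | hc | hc
    · have hc' : 0 < cr (P b) (P a) (ln (P r) (P s) x) := by
        rw [cr_swap']; linarith
      exact ht ι P G hG b a s F2 c d _ (hGH hcd) hz hc' p4 p5
    · rw [p1] at hc
      have hx : x = A / (A + B) := by
        rw [eq_div_iff hpos.ne']; linarith
      have o1 : OS (P a) (P b) (ln (P r) (P s) x) := ⟨_, t0, t1, by rw [hx]; exact te.symm⟩
      rcases hG.noX a b c d _ F1.1 (hGH hcd) o1 hz with ⟨rfl, rfl⟩ | ⟨rfl, rfl⟩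
      · exact hH hcd
      · exact hH hcd.symm
    · exact ht ι P G hG a b r F1 c d _ (hGH hcd) hz hc p2 p3

theorem piece_FLIP (h4 : S_SEC4) (ht : S_TRI) : S_FLIP := by
  classical
  intro ι _ P G H hG hGH hp
  have hex : ∀ p : ι × ι, ∃ q : ι × ι, p ∈ flip P G H → (Face P G p.1 p.2 q.1 ∧
      Face P G p.2 p.1 q.2 ∧ 0 < cr (P p.1) (P q.2) (P q.1) ∧ 0 < cr (P p.2) (P q.1) (P q.2) ∧
      ¬ H.Adj p.1 p.2) := by
    intro p
    by_cases h : p ∈ flip P G H
    · obtain ⟨h1, h2, r, s, h3, h4, h5, h6⟩ := h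
      exact ⟨(r, s), fun _ => ⟨h3, h4, h5, h6, h2⟩⟩
    · exact ⟨p, fun h' => (h h').elim⟩
  choose φ hφ using hex
  have hinj : Set.InjOn φ (flip P G H) := by
    rintro ⟨a, b⟩ hp1 ⟨a', b'⟩ hp2 h
    obtain ⟨f1, f2, f3, f5, _⟩ := hφ _ hp1
    obtain ⟨g1, g2, g3, g5, _⟩ := hφ _ hp2
    rw [← h] at g1 g2 g3 g5
    simp only at f1 f2 f3 f5 g1 g2 g3 g5
    obtain ⟨e1, e2⟩ := h4 ι P G hG (φ (a, b)).1 a b a' b' f1.rot.rot g1.rot.rot
      ⟨P (φ (a, b)).2, by rw [← cr_rot]; exact f3, by rw [cr_rot]; exact f5,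
        by rw [← cr_rot]; exact g3, by rw [cr_rot]; exact g5⟩
    rw [e1, e2]
  have hall : ∀ p ∈ flip P G H, φ p ∈ clean P H ∧ ¬ G.Adj (φ p).1 (φ p).2 := by
    intro p hp1
    obtain ⟨f1, f2, f3, f5, f6⟩ := hφ _ hp1
    exact flip_clean ht hG hGH f6 f1 f2 f3 f5
  have hsub : inner G H ∪ φ '' flip P G H ⊆ clean P H := by
    rintro ⟨a, b⟩ (⟨h1, h2⟩ | ⟨p, hp1, hp2⟩)
    · refine ⟨h1.ne, h2, fun c => hG.vtx a b c h1, fun c d z hcd hz hz' => ?_⟩
      rcases hG.noX a b c d z h1 (hGH hcd) hz hz' with ⟨rfl, rfl⟩ | ⟨rfl, rfl⟩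
      · exact h2 hcd
      · exact h2 hcd.symm
    · rw [← hp2]
      exact (hall p hp1).1
  have hdis : Disjoint (inner G H) (φ '' flip P G H) := by
    rw [Set.disjoint_left]
    rintro x hx ⟨p, hp1, rfl⟩
    exact (hall p hp1).2 hx.1
  have hle := Set.ncard_le_ncard hsub (Set.toFinite _)
  rw [Set.ncard_union_eq hdis, hinj.ncard_image] at hle
  exact hle

end Pool.Agent.K6.H22.PG
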