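import Pool.Agent.K6.H22.PG.Vis

/-!
OUT: the outer darts.
-/

set_option autoImplicit false

namespace Pool.Agent.K6.H22.PG

open Set

theorem cr_ln {a b u : ℝ × ℝ} {l : ℝ} : cr a (ln a b l) u = l * cr a b u := by
  simp only [cr, ln]; ring

theorem outer_inj (h2 : S_SEC2) {ι : Type} {P : ι → ℝ × ℝ} {G H : SimpleGraph ι}
    (hM : MaxPlane P G) (hP : Poly P H) {a b c : ι} (hb : (a, b) ∈ outer P G)
    (hc : (a, c) ∈ outer P G) : b = c := by
  obtain ⟨hab, hb⟩ := hb
  obtain ⟨hac, hc⟩ := hc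
  simp only at hab hb hac hc
  have h0 : cr (P a) (P b) (P c) = 0 := by
    have h1 := hb c
    have h3 := hc b
    rw [cr_swap] at h3
    linarith
  have hPab : P a ≠ P b := fun h => hab.ne (hM.inj h)
  have hPac : P a ≠ P c := fun h => hac.ne (hM.inj h)
  obtain ⟨l, hl⟩ := collinear_ln hPab h0
  have hl0 : l ≠ 0 := by
    rintro rfl
    rw [ln_zero] at hl
    exact hPac hl.symm
  rcases lt_or_gt_of_ne hl0 with hl1 | hl1
  · exfalso
    have hall : ∀ x, cr (P a) (P b) (P x) = 0 := by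
      intro x
      have h3 := hc x
      rw [hl, cr_ln] at h3
      have h4 := hb x
      nlinarith
    obtain ⟨u, w, -, huw, -⟩ := hP.deg a
    obtain ⟨s, hs⟩ := collinear_ln hPab (hall u)
    obtain ⟨t, ht⟩ := collinear_ln hPab (hall w)
    apply huw
    rw [hs, ht]
    simp only [cr, ln]
    ring
  · refine h2 ι P G hM a b c hab hac h0
      ⟨((P a).1 - ((P b).2 - (P a).2), (P a).2 + ((P b).1 - (P a).1)), ?_, ?_⟩
    · have h3 : cr (P a) (P b) ((P a).1 - ((P b).2 - (P a).2), (P a).2 + ((P b).1 - (P a).1)) =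
          ((P b).1 - (P a).1) ^ 2 + ((P b).2 - (P a).2) ^ 2 := by
        simp only [cr]; ring
      rw [h3]
      by_contra hcon
      push Not at hcon
      apply hPab
      ext
      · nlinarith [sq_nonneg ((P b).1 - (P a).1), sq_nonneg ((P b).2 - (P a).2)]
      · nlinarith [sq_nonneg ((P b).1 - (P a).1), sq_nonneg ((P b).2 - (P a).2)]
    · rw [hl, cr_ln]
      have h3 : cr (P a) (P b) ((P a).1 - ((P b).2 - (P a).2), (P a).2 + ((P b).1 - (P a).1)) =
          ((P b).1 - (P a).1) ^ 2 + ((P b).2 - (P a).2) ^ 2 := by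
        simp only [cr]; ring
      rw [h3]
      refine mul_pos hl1 ?_
      by_contra hcon
      push Not at hcon
      apply hPab
      ext
      · nlinarith [sq_nonneg ((P b).1 - (P a).1), sq_nonneg ((P b).2 - (P a).2)]
      · nlinarith [sq_nonneg ((P b).1 - (P a).1), sq_nonneg ((P b).2 - (P a).2)]

/-- OUT1 -/
theorem piece_OUT1 (h2 : S_SEC2) : S_OUT1 := by
  intro ι _ P G H hM _ hP
  have h : Hul P G = Prod.fst '' outer P G := by
    ext c
    constructor
    · rintro ⟨d, hd⟩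
      exact ⟨(c, d), hd, rfl⟩
    · rintro ⟨⟨c', d⟩, hd, rfl⟩
      exact ⟨d, hd⟩
  rw [h, ncard_image_of_injOn]
  rintro ⟨a, b⟩ hb ⟨a', c⟩ hc h3
  simp only at h3
  subst h3
  rw [outer_inj h2 hM hP hb hc]

/-- a vertex of the hull is not strictly inside a segment which is on the line of an edge with
vertices on both sides -/
theorem no_pass {ι : Type} {P : ι → ℝ × ℝ} {G : SimpleGraph ι} (hM : MaxPlane P G) {x y : ι}
    (hxy : G.Adj x y) (hx : x ∈ Hul P G) {c1 c2 : ι} (h1 : 0 < cr (P x) (P y) (P c1))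
    (h2 : cr (P x) (P y) (P c2) < 0) {c d : ι} {t l : ℝ} (ht0 : 0 ≤ t) (ht1 : t ≤ 1)
    (hz : ln (P c) (P d) t = ln (P x) (P y) l) (hl : l < 0) : False := by
  obtain ⟨e, hxe, he⟩ := hx
  simp only at hxe he
  have hPxy : P x ≠ P y := fun h => hxy.ne (hM.inj h)
  have hPxe : P x ≠ P e := fun h => hxe.ne (hM.inj h)
  have hz1 : cr (P x) (P e) (ln (P c) (P d) t) ≤ 0 := by
    have h3 := aff3 (P x) (P e) (P c) (P d) t
    simp only at h3
    rw [h3]
    nlinarith [he c, he d]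
  have hz2 : cr (P x) (P e) (ln (P c) (P d) t) = l * cr (P x) (P e) (P y) := by
    rw [hz]
    simp only [cr, ln]; ring
  have hy0 : cr (P x) (P e) (P y) = 0 := by
    have h3 := he y
    nlinarith
  obtain ⟨μ, hμ⟩ := collinear_ln (u := P e) hPxy (by rw [cr_swap, hy0, neg_zero])
  have h3 : ∀ u, μ * cr (P x) (P y) (P u) ≤ 0 := by
    intro u
    rw [← cr_ln, ← hμ]
    exact he u
  have h4 : μ = 0 := by
    have h5 := h3 c1
    have h6 := h3 c2
    by_contra h7
    rcases lt_or_gt_of_ne h7 with h8 | h8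
    · nlinarith
    · nlinarith
  rw [h4, ln_zero] at hμ
  exact hPxe hμ.symm

/-- an edge of the polygon between two vertices of the hull is an outer dart -/
theorem hull_edge {ι : Type} {P : ι → ℝ × ℝ} {G H : SimpleGraph ι} (hM : MaxPlane P G)
    (hHG : H ≤ G) (hP : Poly P H) {x y : ι} (hxy : H.Adj x y) (hx : x ∈ Hul P G)
    (hy : y ∈ Hul P G) : (x, y) ∈ outer P G ∨ (y, x) ∈ outer P G := by
  by_contra hcon
  push Not at hcon
  obtain ⟨hc1, hc2⟩ := hcon
  have hGxy := hHG hxy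
  have hPxy : P x ≠ P y := fun h => hGxy.ne (hM.inj h)
  obtain ⟨u, hu⟩ : ∃ u, 0 < cr (P x) (P y) (P u) := by
    by_contra h
    push Not at h
    exact hc1 ⟨hGxy, h⟩
  obtain ⟨v, hv⟩ : ∃ v, cr (P x) (P y) (P v) < 0 := by
    by_contra h
    push Not at h
    refine hc2 ⟨hGxy.symm, fun w => ?_⟩
    have h1 := h w
    have h2 := cr_swap' (P x) (P y) (P w)
    simp only
    linarith
  obtain ⟨c, d, hcd, hcS, hdS, hcx, hcy, hdx, hdy⟩ := hP.conn x y hxy
    {u | 0 < cr (P x) (P y) (P u)} ⟨u, by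
      rintro rfl
      simp at hu, by
      rintro rfl
      simp at hu, hu⟩ ⟨v, by
      rintro rfl
      simp at hv, by
      rintro rfl
      simp at hv, by
      simp only [mem_ofPred_eq, not_lt]
      exact hv.le⟩
  simp only [mem_ofPred_eq, not_lt] at hcS hdS
  have hGcd := hHG hcd
  obtain ⟨t, ht⟩ : ∃ t, t = cr (P x) (P y) (P c) / (cr (P x) (P y) (P c) - cr (P x) (P y) (P d)) :=
    ⟨_, rfl⟩
  have hden : 0 < cr (P x) (P y) (P c) - cr (P x) (P y) (P d) := by linarith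
  have ht0 : 0 < t := by rw [ht]; exact div_pos hcS hden
  have ht1 : t ≤ 1 := by rw [ht, div_le_one hden]; linarith
  have hz0 : cr (P x) (P y) (ln (P c) (P d) t) = 0 := by
    have h3 := aff3 (P x) (P y) (P c) (P d) t
    simp only at h3
    rw [h3, ht]
    field_simp
    ring
  obtain ⟨l, hl⟩ := collinear_ln hPxy hz0
  have hcs : CS (P c) (P d) (ln (P c) (P d) t) := ⟨t, ht0.le, ht1, rfl⟩
  rcases lt_or_ge l 0 with h3 | h3
  · exact no_pass hM hGxy hx hu hv ht0.le ht1 hl h3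
  · rcases lt_or_ge 1 l with h4 | h4
    · refine no_pass hM hGxy.symm hy (c1 := v) (c2 := u) (c := c) (d := d) (l := 1 - l) ?_ ?_ ht0.le ht1 ?_
        (by linarith)
      · rw [cr_swap']; linarith
      · rw [cr_swap']; linarith
      · rw [hl, ln_swap (P x) (P y), sub_sub_cancel]
    · -- in the closed segment
      have hxyz : CS (P x) (P y) (ln (P c) (P d) t) := ⟨l, h3, h4, hl⟩
      rcases CS_cases hxyz with h5 | h5 | h5
      · rw [h5] at hcs
        rcases hM.vtx' hGcd hcs with h6 | h6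
        · exact hcx h6.symm
        · exact hdx h6.symm
      · rw [h5] at hcs
        rcases hM.vtx' hGcd hcs with h6 | h6
        · exact hcy h6.symm
        · exact hdy h6.symm
      · rcases CS_cases hcs with h6 | h6 | h6
        · rw [h6] at h5
          exact hM.vtx x y c hGxy h5
        · rw [h6] at h5
          exact hM.vtx x y d hGxy h5
        · rcases hM.noX x y c d _ hGxy hGcd h5 h6 with h7 | h7
          · exact hcx h7.1.symm
          · exact hdx h7.1.symm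

theorem ncard_deg {ι : Type} [Finite ι] {P : ι → ℝ × ℝ} {H : SimpleGraph ι} (hP : Poly P H)
    (T : Set ι) : {p : ι × ι | p.1 ∈ T ∧ H.Adj p.1 p.2}.ncard = 2 * T.ncard := by
  choose u w huw _ hadj using hP.deg
  have h : {p : ι × ι | p.1 ∈ T ∧ H.Adj p.1 p.2} =
      (fun c => (c, u c)) '' T ∪ (fun c => (c, w c)) '' T := by
    ext ⟨a, b⟩
    simp only [mem_ofPred_eq, mem_union, mem_image, Prod.mk.injEq]
    constructor
    · rintro ⟨h1, h2⟩
      rcases (hadj a b).1 h2 with h3 | h3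
      · exact Or.inl ⟨a, h1, rfl, h3.symm⟩
      · exact Or.inr ⟨a, h1, rfl, h3.symm⟩
    · rintro (⟨c, h1, rfl, rfl⟩ | ⟨c, h1, rfl, rfl⟩)
      · exact ⟨h1, (hadj _ _).2 (Or.inl rfl)⟩
      · exact ⟨h1, (hadj _ _).2 (Or.inr rfl)⟩
  rw [h, ncard_union_eq, ncard_image_of_injective, ncard_image_of_injective]
  · ring
  · intro a b hab
    exact (Prod.mk.inj hab).1
  · intro a b hab
    exact (Prod.mk.inj hab).1
  · rw [Set.disjoint_left]
    rintro _ ⟨a, _, rfl⟩ ⟨b, _, hb⟩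
    simp only [Prod.mk.injEq] at hb
    obtain ⟨rfl, hb⟩ := hb
    exact huw _ hb.symm

/-- OUT2 -/
theorem piece_OUT2 (h1 : S_OUT1) : S_OUT2 := by
  intro ι _ P G H hM hHG hP
  have hout := h1 ι P G H hM hHG hP
  -- the darts of the polygon
  have hall := ncard_deg hP (univ : Set ι)
  have hT := ncard_deg hP (Hul P G)ᶜ
  obtain ⟨O, hO⟩ : ∃ O : Set (ι × ι), O = {p ∈ outer P G | H.Adj p.1 p.2} := ⟨_, rfl⟩
  have hcover : {p : ι × ι | p.1 ∈ (univ : Set ι) ∧ H.Adj p.1 p.2} ⊆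
      ({p : ι × ι | p.1 ∈ (Hul P G)ᶜ ∧ H.Adj p.1 p.2} ∪
        Prod.swap '' {p : ι × ι | p.1 ∈ (Hul P G)ᶜ ∧ H.Adj p.1 p.2}) ∪ (O ∪ Prod.swap '' O) := by
    rintro ⟨x, y⟩ ⟨-, hxy⟩
    simp only at hxy
    by_cases hx : x ∈ Hul P G
    · by_cases hy : y ∈ Hul P G
      · right
        rcases hull_edge hM hHG hP hxy hx hy with h | h
        · left
          rw [hO]
          exact ⟨h, hxy⟩
        · right
          refine ⟨(y, x), ?_, rfl⟩
          rw [hO]
          exact ⟨h, hxy.symm⟩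
      · exact Or.inl (Or.inr ⟨(y, x), ⟨hy, hxy.symm⟩, rfl⟩)
    · exact Or.inl (Or.inl ⟨hx, hxy⟩)
  have hle := ncard_le_ncard hcover (Set.toFinite _)
  have hu1 := ncard_union_le ({p : ι × ι | p.1 ∈ (Hul P G)ᶜ ∧ H.Adj p.1 p.2} ∪
        Prod.swap '' {p : ι × ι | p.1 ∈ (Hul P G)ᶜ ∧ H.Adj p.1 p.2}) (O ∪ Prod.swap '' O)
  have hu2 := ncard_union_le {p : ι × ι | p.1 ∈ (Hul P G)ᶜ ∧ H.Adj p.1 p.2}
    (Prod.swap '' {p : ι × ι | p.1 ∈ (Hul P G)ᶜ ∧ H.Adj p.1 p.2})
  have hu3 := ncard_union_le O (Prod.swap '' O)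
  rw [ncard_image_of_injective _ Prod.swap_injective] at hu2 hu3
  have hcompl : (Hul P G).ncard + (Hul P G)ᶜ.ncard = Nat.card ι := ncard_add_ncard_compl _
  rw [ncard_univ] at hall
  -- the outer darts
  have hsplit : outer P G = {p ∈ outer P G | ¬ H.Adj p.1 p.2} ∪ O := by
    rw [hO]
    ext p
    simp only [mem_union, mem_ofPred_eq]
    tauto
  have hdis : Disjoint {p ∈ outer P G | ¬ H.Adj p.1 p.2} O := by
    rw [hO, Set.disjoint_left]
    rintro p ⟨_, h3⟩ ⟨_, h4⟩
    exact h3 h4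
  have hsum : (outer P G).ncard = {p ∈ outer P G | ¬ H.Adj p.1 p.2}.ncard + O.ncard := by
    conv_lhs => rw [hsplit]
    exact ncard_union_eq hdis (Set.toFinite _) (Set.toFinite _)
  omega

end Pool.Agent.K6.H22.PG
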