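import Pool.Agent.K6.H22.PG.Stm
import Pool.Agent.Results.MP_773b78_co.ManyMixed

/-! From simple polygons to maximal plane straight-line graphs. -/

set_option autoImplicit false

namespace Pool.Agent.K6.H22.PG

open Pool.Agent.Results.MP_773b78_co.ManyMixed (edge bdry IsSimple NoStraight inside outside
  IsDiagonal Mixed numMixed)

/-- plane graphs -/
def PlaneG {ι : Type} (P : ι → ℝ × ℝ) (G : SimpleGraph ι) : Prop :=
  (∀ a b c, G.Adj a b → ¬ OS (P a) (P b) (P c)) ∧
  (∀ a b c d z, G.Adj a b → G.Adj c d → OS (P a) (P b) z → OS (P c) (P d) z →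
    (a = c ∧ b = d) ∨ (a = d ∧ b = c))

theorem ex_max {ι : Type} [Finite ι] {P : ι → ℝ × ℝ} (hP : Function.Injective P)
    {H : SimpleGraph ι} (hH : PlaneG P H) : ∃ G, H ≤ G ∧ MaxPlane P G := by
  classical
  have hfin : {G : SimpleGraph ι | H ≤ G ∧ PlaneG P G}.Finite := Set.toFinite _
  obtain ⟨G, hHG, hmax⟩ := hfin.exists_le_maximal (a := H) ⟨le_rfl, hH⟩
  have hG := hmax.1.2
  refine ⟨G, hHG, hP, hG.1, hG.2, fun a b hab hv hX => ?_⟩
  by_contra hn
  set G' : SimpleGraph ι := G ⊔ SimpleGraph.edge a b with hG'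
  have hadj : ∀ x y, G'.Adj x y ↔ G.Adj x y ∨ ((x = a ∧ y = b) ∨ (x = b ∧ y = a)) := by
    intro x y
    rw [hG', SimpleGraph.sup_adj, SimpleGraph.edge_adj]
    constructor
    · rintro (h | ⟨h, _⟩)
      · exact Or.inl h
      · right
        rcases h with ⟨rfl, rfl⟩ | ⟨rfl, rfl⟩ <;> simp
    · rintro (h | h)
      · exact Or.inl h
      · right
        rcases h with ⟨rfl, rfl⟩ | ⟨rfl, rfl⟩ <;> simp [hab, hab.symm]
  have hpl : PlaneG P G' := by
    constructor
    · intro x y c h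
      rcases (hadj x y).1 h with h | ⟨rfl, rfl⟩ | ⟨rfl, rfl⟩
      · exact hG.1 x y c h
      · exact hv c
      · exact fun h' => hv c (OS_comm h')
    · intro x y c d z h1 h2 h3 h4
      rcases (hadj x y).1 h1 with h | ⟨rfl, rfl⟩ | ⟨rfl, rfl⟩
      · rcases (hadj c d).1 h2 with h' | ⟨rfl, rfl⟩ | ⟨rfl, rfl⟩
        · exact hG.2 x y c d z h h' h3 h4
        · exact (hX x y z h h4 h3).elim
        · exact (hX x y z h (OS_comm h4) h3).elim
      · rcases (hadj c d).1 h2 with h' | ⟨rfl, rfl⟩ | ⟨rfl, rfl⟩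
        · exact (hX c d z h' h3 h4).elim
        · exact Or.inl ⟨rfl, rfl⟩
        · exact Or.inr ⟨rfl, rfl⟩
      · rcases (hadj c d).1 h2 with h' | ⟨rfl, rfl⟩ | ⟨rfl, rfl⟩
        · exact (hX c d z h' (OS_comm h3) h4).elim
        · exact Or.inr ⟨rfl, rfl⟩
        · exact Or.inl ⟨rfl, rfl⟩
  have hle : G' ≤ G := hmax.2 ⟨hHG.trans le_sup_left, hpl⟩ le_sup_left
  exact hn (hle ((hadj a b).2 (Or.inr (Or.inl ⟨rfl, rfl⟩))))

/-- the polygon as a graph -/
def cyc (n : ℕ) : SimpleGraph (Fin n) where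
  Adj i j := i ≠ j ∧ ((j : ℕ) = (i + 1) % n ∨ (i : ℕ) = (j + 1) % n)
  symm := ⟨fun _ _ h => ⟨h.1.symm, h.2.symm⟩⟩
  loopless := ⟨fun _ h => h.1 rfl⟩

theorem OS_left {p q : ℝ × ℝ} (h : p ≠ q) : ¬ OS p q p := by
  rintro ⟨t, h0, h1, e⟩
  apply h
  have e1 := congrArg Prod.fst e
  have e2 := congrArg Prod.snd e
  simp only [ln] at e1 e2
  have e1' : t * (q.1 - p.1) = 0 := by linarith
  have e2' : t * (q.2 - p.2) = 0 := by linarith
  rcases mul_eq_zero.1 e1' with h | h1
  · exact absurd h h0.ne'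
  rcases mul_eq_zero.1 e2' with h | h2
  · exact absurd h h0.ne'
  ext <;> linarith

theorem OS_right {p q : ℝ × ℝ} (h : p ≠ q) : ¬ OS p q q := fun h' => OS_left h.symm (OS_comm h')

variable {n : ℕ} {v : ℕ → ℝ × ℝ}

theorem OS_edge {i : ℕ} {z : ℝ × ℝ} (h : OS (v i) (v ((i + 1) % n)) z) : z ∈ edge n v i := by
  obtain ⟨t, h0, h1, rfl⟩ := h
  exact seg_iff.2 ⟨t, h0.le, h1.le, rfl⟩

theorem mem_edge_left (i : ℕ) : v i ∈ edge n v i := left_mem_segment _ _ _
theorem mem_edge_right (i : ℕ) : v ((i + 1) % n) ∈ edge n v i := right_mem_segment _ _ _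

theorem succ_ne (hn : 3 ≤ n) {i : ℕ} (hi : i < n) : (i + 1) % n ≠ i := by
  intro h
  rcases Nat.lt_or_ge (i + 1) n with h1 | h1
  · rw [Nat.mod_eq_of_lt h1] at h; omega
  · have : i + 1 = n := by omega
    rw [this, Nat.mod_self] at h; omega

theorem v_ne (hn : 3 ≤ n) (hs : IsSimple n v) {i : ℕ} (hi : i < n) : v i ≠ v ((i + 1) % n) :=
  fun h => succ_ne hn hi (hs.inj i hi _ (Nat.mod_lt _ (by omega)) h).symm

/-- no vertex in the open edges -/
theorem plane_vtx (hn : 3 ≤ n) (hs : IsSimple n v) {i c : ℕ} (hi : i < n) (hc : c < n) :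
    ¬ OS (v i) (v ((i + 1) % n)) (v c) := by
  intro h
  have hpos : 0 < n := by omega
  have hne := v_ne hn hs hi
  by_cases h1 : c = i
  · subst h1; exact OS_left hne h
  by_cases h2 : c = (i + 1) % n
  · subst h2; exact OS_right hne h
  have hm := OS_edge h
  by_cases h3 : i = (c + 1) % n
  · have := hs.adj c hc
    rw [← h3] at this
    have h4 : v c ∈ edge n v c ∩ edge n v i := ⟨mem_edge_left c, hm⟩
    rw [this] at h4
    exact h1 (hs.inj c hc i hi h4)
  · exact Set.disjoint_left.1 (hs.disj i hi c hc (fun h => h1 h.symm) h2 h3) hm (mem_edge_left c)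

/-- open edges do not cross -/
theorem plane_noX (hn : 3 ≤ n) (hs : IsSimple n v) {i j : ℕ} {z : ℝ × ℝ} (hi : i < n) (hj : j < n)
    (h1 : OS (v i) (v ((i + 1) % n)) z) (h2 : OS (v j) (v ((j + 1) % n)) z) : i = j := by
  have hpos : 0 < n := by omega
  by_contra hij
  have m1 := OS_edge h1
  have m2 := OS_edge h2
  by_cases h3 : j = (i + 1) % n
  · have := hs.adj i hi
    rw [← h3] at this
    have h4 : z ∈ edge n v i ∩ edge n v j := ⟨m1, m2⟩
    rw [this, Set.mem_singleton_iff] at h4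
    subst h4
    exact OS_left (v_ne hn hs hj) h2
  by_cases h4 : i = (j + 1) % n
  · have := hs.adj j hj
    rw [← h4] at this
    have h5 : z ∈ edge n v j ∩ edge n v i := ⟨m2, m1⟩
    rw [this, Set.mem_singleton_iff] at h5
    subst h5
    exact OS_left (v_ne hn hs hi) h1
  exact Set.disjoint_left.1 (hs.disj i hi j hj hij h3 h4) m1 m2

theorem cyc_cases {i j : Fin n} (h : (cyc n).Adj i j) :
    (j : ℕ) = (i + 1) % n ∨ (i : ℕ) = (j + 1) % n := h.2

theorem plane_cyc (hn : 3 ≤ n) (hs : IsSimple n v) : PlaneG (fun i : Fin n => v i) (cyc n) := by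
  constructor
  · intro a b c hab h
    rcases cyc_cases hab with h1 | h1
    · simp only [h1] at h
      exact plane_vtx hn hs a.2 c.2 h
    · simp only [h1] at h
      exact plane_vtx hn hs b.2 c.2 (OS_comm h)
  · intro a b c d z hab hcd h1 h2
    rcases cyc_cases hab with h3 | h3 <;> rcases cyc_cases hcd with h4 | h4
    · simp only [h3] at h1
      simp only [h4] at h2
      have := plane_noX hn hs a.2 c.2 h1 h2
      exact Or.inl ⟨Fin.ext this, Fin.ext (by rw [h3, h4, this])⟩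
    · simp only [h3] at h1
      simp only [h4] at h2
      have := plane_noX hn hs a.2 d.2 h1 (OS_comm h2)
      exact Or.inr ⟨Fin.ext this, Fin.ext (by rw [h3, h4, this])⟩
    · simp only [h3] at h1
      simp only [h4] at h2
      have := plane_noX hn hs b.2 c.2 (OS_comm h1) h2
      exact Or.inr ⟨Fin.ext (by rw [h3, h4, this]), Fin.ext this⟩
    · simp only [h3] at h1
      simp only [h4] at h2
      have := plane_noX hn hs b.2 d.2 (OS_comm h1) (OS_comm h2)
      exact Or.inl ⟨Fin.ext (by rw [h3, h4, this]), Fin.ext this⟩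

theorem collinear_of_cr {p q r : ℝ × ℝ} (hpq : p ≠ q) (h : cr q p r = 0) :
    Collinear ℝ ({p, q, r} : Set (ℝ × ℝ)) := by
  rw [collinear_iff_of_mem (p₀ := q) (by simp)]
  refine ⟨p - q, fun x hx => ?_⟩
  simp only [Set.mem_insert_iff, Set.mem_singleton_iff] at hx
  rcases hx with rfl | rfl | rfl
  · exact ⟨1, by simp⟩
  · exact ⟨0, by simp⟩
  · unfold cr at h
    by_cases h1 : p.1 - q.1 = 0
    · have h2 : p.2 - q.2 ≠ 0 := by
        intro h2
        exact hpq (Prod.ext (by linarith) (by linarith))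
      have h3 : x.1 - q.1 = 0 := by
        have : (p.2 - q.2) * (x.1 - q.1) = 0 := by rw [h1] at h; linarith
        rcases mul_eq_zero.1 this with h' | h'
        · exact absurd h' h2
        · exact h'
      refine ⟨(x.2 - q.2) / (p.2 - q.2), ?_⟩
      ext
      · simp [h1]; linarith
      · simp; field_simp; ring
    · refine ⟨(x.1 - q.1) / (p.1 - q.1), ?_⟩
      ext
      · simp; field_simp; ring
      · simp; field_simp; linarith

theorem succ_mod {i : ℕ} (hi : i < n) : (i + 1) % n = if i + 1 = n then 0 else i + 1 := by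
  split_ifs with h
  · rw [h, Nat.mod_self]
  · exact Nat.mod_eq_of_lt (by omega)

theorem poly_deg (hn : 3 ≤ n) (hs : IsSimple n v) (hv : NoStraight n v) (c : Fin n) :
    ∃ u w : Fin n, u ≠ w ∧ cr (v c) (v u) (v w) ≠ 0 ∧ ∀ x, (cyc n).Adj c x ↔ (x = u ∨ x = w) := by
  have hc := c.2
  have hpos : 0 < n := by omega
  set u : Fin n := ⟨((c : ℕ) + 1) % n, Nat.mod_lt _ hpos⟩ with hu
  set w : Fin n := ⟨if (c : ℕ) = 0 then n - 1 else c - 1, by split_ifs <;> omega⟩ with hw
  have hw1 : ((w : ℕ) + 1) % n = c := by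
    rw [succ_mod w.2]
    simp only [hw]
    split_ifs <;> omega
  have hw2 : ((w : ℕ) + 2) % n = u := by
    have : ((w : ℕ) + 2) % n = (((w : ℕ) + 1) % n + 1) % n := by
      rw [Nat.mod_add_mod]
    rw [this, hw1]
  refine ⟨u, w, ?_, ?_, ?_⟩
  · intro h
    have h1 := congrArg Fin.val h
    simp only [hu, hw] at h1
    rw [succ_mod hc] at h1
    split_ifs at h1 <;> omega
  · intro h
    refine hv w w.2 ?_
    rw [hw1, hw2]
    apply collinear_of_cr
    · intro h1
      have h2 := hs.inj w w.2 c c.2 h1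
      have h3 := succ_ne hn w.2
      rw [hw1] at h3
      exact h3 h2.symm
    · rw [cr_swap, h, neg_zero]
  · intro x
    have hx := x.2
    constructor
    · intro h
      rcases h.2 with h1 | h1
      · left
        exact Fin.ext h1
      · right
        apply Fin.ext
        simp only [hw]
        rw [succ_mod hx] at h1
        split_ifs at h1 ⊢ <;> omega
    · rintro (rfl | rfl)
      · refine ⟨?_, Or.inl rfl⟩
        intro h
        exact succ_ne hn hc (congrArg Fin.val h).symm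
      · refine ⟨?_, Or.inr hw1.symm⟩
        intro h
        have h3 := succ_ne hn w.2
        rw [hw1] at h3
        exact h3 (congrArg Fin.val h)

theorem conn_aux {x y : Fin n} (hn : 3 ≤ n) (hxy : (y : ℕ) = ((x : ℕ) + 1) % n) (S : Set (Fin n))
    (hl : ∃ l, l ≠ x ∧ l ≠ y ∧ l ∈ S) (hr : ∃ r, r ≠ x ∧ r ≠ y ∧ r ∉ S) :
    ∃ c d, (cyc n).Adj c d ∧ c ∈ S ∧ d ∉ S ∧ c ≠ x ∧ c ≠ y ∧ d ≠ x ∧ d ≠ y := by
  have hpos : 0 < n := by omega
  have hx := x.2
  have hy := y.2
  rw [succ_mod hx] at hxy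
  by_contra hcon
  push Not at hcon
  let e : ℕ → Fin n := fun m => ⟨m % n, Nat.mod_lt _ hpos⟩
  -- not `x`, `y`
  have key : ∀ m : ℕ, (y : ℕ) + 1 ≤ m → m ≤ (y : ℕ) + n - 2 → e m ≠ x ∧ e m ≠ y := by
    intro m h1 h2
    have hval : (e m : ℕ) = if m < n then m else m - n := by
      show m % n = _
      split_ifs with h
      · exact Nat.mod_eq_of_lt h
      · rw [Nat.mod_eq_sub_mod (by omega)]
        exact Nat.mod_eq_of_lt (by omega)
    constructor
    · intro h
      have := congrArg Fin.val h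
      rw [hval] at this
      split_ifs at this hxy <;> omega
    · intro h
      have := congrArg Fin.val h
      rw [hval] at this
      split_ifs at this hxy <;> omega
  have hadj : ∀ m, (cyc n).Adj (e m) (e (m + 1)) := by
    intro m
    have h1 : ((e (m + 1) : Fin n) : ℕ) = ((e m : ℕ) + 1) % n := by
      show (m + 1) % n = (m % n + 1) % n
      rw [Nat.mod_add_mod]
    refine ⟨?_, Or.inl h1⟩
    intro h
    have h2 := succ_ne hn (e m).2
    rw [← h1] at h2
    exact h2 (congrArg Fin.val h).symm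
  have step : ∀ m : ℕ, (y : ℕ) + 1 ≤ m → m ≤ (y : ℕ) + n - 2 → (e m ∈ S ↔ e (y + 1) ∈ S) := by
    intro m hm
    induction m, hm using Nat.le_induction with
    | base => intro _; exact Iff.rfl
    | succ m hm ih =>
      intro h2
      rw [← ih (by omega)]
      have k1 := key m hm (by omega)
      have k2 := key (m + 1) (by omega) h2
      constructor
      · intro h
        by_contra h'
        exact k1.2 (hcon _ _ (hadj m).symm h h' k2.1 k2.2 k1.1)
      · intro h
        by_contra h'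
        exact k2.2 (hcon _ _ (hadj m) h h' k1.1 k1.2 k2.1)
  have surj : ∀ z : Fin n, z ≠ x → z ≠ y → ∃ m : ℕ, (y : ℕ) + 1 ≤ m ∧ m ≤ (y : ℕ) + n - 2 ∧
      e m = z := by
    intro z h1 h2
    have hz := z.2
    have h1' : (z : ℕ) ≠ x := fun h => h1 (Fin.ext h)
    have h2' : (z : ℕ) ≠ y := fun h => h2 (Fin.ext h)
    by_cases h : (y : ℕ) < z
    · refine ⟨z, by omega, ?_, Fin.ext (Nat.mod_eq_of_lt hz)⟩
      split_ifs at hxy <;> omega
    · refine ⟨z + n, by omega, ?_, Fin.ext ?_⟩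
      · split_ifs at hxy <;> omega
      · show (z + n) % n = z
        rw [Nat.add_mod_right, Nat.mod_eq_of_lt hz]
  obtain ⟨l, l1, l2, l3⟩ := hl
  obtain ⟨r, r1, r2, r3⟩ := hr
  obtain ⟨m, m1, m2, rfl⟩ := surj l l1 l2
  obtain ⟨k, k1, k2, rfl⟩ := surj r r1 r2
  rw [step m m1 m2] at l3
  rw [step k k1 k2] at r3
  exact r3 l3

theorem poly_cyc (hn : 3 ≤ n) (hs : IsSimple n v) (hv : NoStraight n v) :
    Poly (fun i : Fin n => v i) (cyc n) := by
  refine ⟨poly_deg hn hs hv, fun x y hxy S hl hr => ?_⟩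
  rcases cyc_cases hxy with h | h
  · exact conn_aux hn h S hl hr
  · obtain ⟨c, d, h1, h2, h3, h4, h5, h6, h7⟩ := conn_aux hn h S
      (by obtain ⟨l, l1, l2, l3⟩ := hl; exact ⟨l, l2, l1, l3⟩)
      (by obtain ⟨l, l1, l2, l3⟩ := hr; exact ⟨l, l2, l1, l3⟩)
    exact ⟨c, d, h1, h2, h3, h5, h4, h7, h6⟩

end Pool.Agent.K6.H22.PG
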