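import Pool.Agent.K6.H22.PG.Stm

/-! Maximal plane straight-line graphs: the edges at a vertex. -/

set_option autoImplicit false

namespace Pool.Agent.K6.H22.PG

theorem piece_SEC1 : S_SEC1 := by
  intro ι P G hG a b c hF x hax h1 h2
  obtain ⟨hab, hbc, hca, hD, hE⟩ := hF
  have h3 : 0 < cr (P c) (P a) (P x) := by rw [← cr_rot]; exact h2
  have h4 : cr (P b) (P c) (P x) < 0 := by
    by_contra h
    push Not at h
    rcases hE x h1.le h h3.le with rfl | rfl | rfl
    · exact hax.ne rfl
    · simp at h1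
    · simp at h2
  have hsum := cr_sum (P a) (P b) (P c) (P x)
  set T := cr (P a) (P b) (P x) with hT
  set S := cr (P a) (P b) (P x) + cr (P c) (P a) (P x) with hS
  set D := cr (P a) (P b) (P c) with hDd
  have hSpos : 0 < S := by linarith
  have hSD : D < S := by linarith
  have e : ln (P a) (P x) (D / S) = ln (P b) (P c) (T / S) := by
    ext
    · simp only [ln]
      field_simp
      rw [hS, hDd, hT]
      unfold cr
      ring
    · simp only [ln]
      field_simp
      rw [hS, hDd, hT]
      unfold cr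
      ring
  have o1 : OS (P a) (P x) (ln (P a) (P x) (D / S)) :=
    ⟨_, div_pos hD hSpos, (div_lt_one hSpos).2 hSD, rfl⟩
  have o2 : OS (P b) (P c) (ln (P a) (P x) (D / S)) :=
    ⟨_, div_pos h1 hSpos, (div_lt_one hSpos).2 (by linarith), e⟩
  rcases hG.noX a x b c _ hax hbc o1 o2 with h | h
  · exact hab.ne h.1
  · exact hca.ne h.1.symm

theorem piece_SEC2 : S_SEC2 := by
  intro ι P G hG a b c hab hac h0 ⟨s, hs1, hs2⟩
  set A := cr (P a) (P b) s with hA
  set B := cr (P a) (P c) s with hB
  have k1 : A * ((P c).1 - (P a).1) = B * ((P b).1 - (P a).1) := by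
    have : A * ((P c).1 - (P a).1) - B * ((P b).1 - (P a).1) =
        cr (P a) (P b) (P c) * (s.1 - (P a).1) := by
      rw [hA, hB]; unfold cr; ring
    rw [h0] at this
    linarith
  have k2 : A * ((P c).2 - (P a).2) = B * ((P b).2 - (P a).2) := by
    have : A * ((P c).2 - (P a).2) - B * ((P b).2 - (P a).2) =
        cr (P a) (P b) (P c) * (s.2 - (P a).2) := by
      rw [hA, hB]; unfold cr; ring
    rw [h0] at this
    linarith
  rcases lt_trichotomy A B with h | h | h
  · -- `b` is in the open edge `a c`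
    exfalso
    refine hG.vtx a c b hac ⟨A / B, div_pos hs1 hs2, (div_lt_one hs2).2 h, ?_⟩
    ext
    · simp only [ln]; field_simp; linarith
    · simp only [ln]; field_simp; linarith
  · apply hG.inj
    rw [← h] at k1 k2
    ext
    · have := mul_left_cancel₀ hs1.ne' k1
      linarith
    · have := mul_left_cancel₀ hs1.ne' k2
      linarith
  · exfalso
    refine hG.vtx a b c hab ⟨B / A, div_pos hs2 hs1, (div_lt_one hs1).2 h, ?_⟩
    ext
    · simp only [ln]; field_simp; linarith
    · simp only [ln]; field_simp; linarith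

theorem piece_SEC3 (h1 : S_SEC1) (h2 : S_SEC2) : S_SEC3 := by
  intro ι P G hG a b c c' hF hF'
  have e1 := h1 ι P G hG a b c hF c' hF'.2.2.1.symm hF'.2.2.2.1
  have e2 := h1 ι P G hG a b c' hF' c hF.2.2.1.symm hF.2.2.2.1
  rw [cr_swap] at e2
  have e3 : cr (P a) (P c) (P c') = 0 := by
    rw [cr_swap]
    by_contra h
    rcases lt_or_gt_of_ne h with h | h
    · exact e1 (by linarith)
    · exact e2 h
  refine h2 ι P G hG a c c' hF.2.2.1.symm hF'.2.2.1.symm e3
    ⟨(2 * (P a).1 - (P b).1, 2 * (P a).2 - (P b).2), ?_, ?_⟩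
  · have := hF.2.2.2.1
    unfold cr at this ⊢
    simp only
    linarith
  · have := hF'.2.2.2.1
    unfold cr at this ⊢
    simp only
    linarith

theorem piece_SEC4 (h1 : S_SEC1) (h2 : S_SEC2) : S_SEC4 := by
  intro ι P G hG p a b a' b' hF hF' ⟨s, s1, s2, s3, s4⟩
  have hD := hF.2.2.2.1
  have hD' := hF'.2.2.2.1
  have ha : cr (P p) (P a) (P a') = 0 := by
    rcases lt_trichotomy (cr (P p) (P a) (P a')) 0 with h | h | h
    · -- `a` is strictly inside `p a' b'`
      exfalso
      have i := cr_id (P p) (P a') (P a) s (P b')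
      have h' : 0 < cr (P p) (P a') (P a) := by rw [cr_swap]; linarith
      have e1 : cr (P p) s (P a') = - cr (P p) (P a') s := cr_swap _ _ _
      refine h1 ι P G hG p a' b' hF' a hF.1 h' ?_
      have : 0 < cr (P p) (P a') s * cr (P p) (P a) (P b') := by
        rw [e1] at i
        nlinarith [mul_pos s1 hD', mul_pos h' s4]
      exact (pos_iff_pos_of_mul_pos this).1 s3
    · exact h
    · exfalso
      have i := cr_id (P p) (P a) (P a') s (P b)
      have e1 : cr (P p) s (P a) = - cr (P p) (P a) s := cr_swap _ _ _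
      refine h1 ι P G hG p a b hF a' hF'.1 h ?_
      have : 0 < cr (P p) (P a) s * cr (P p) (P a') (P b) := by
        rw [e1] at i
        nlinarith [mul_pos s3 hD, mul_pos h s2]
      exact (pos_iff_pos_of_mul_pos this).1 s1
  have haa : a = a' := h2 ι P G hG p a a' hF.1 hF'.1 ha ⟨s, s1, s3⟩
  subst haa
  exact ⟨rfl, piece_SEC3 h1 h2 ι P G hG p a b b' hF hF'⟩

end Pool.Agent.K6.H22.PG
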