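import Pool.Agent.K6.H22.PG.Defs

/-!
Maximal plane straight-line graphs on a finite set of points of the plane: exact statements of the
pieces.
-/

set_option autoImplicit false

namespace Pool.Agent.K6.H22.PG

/-- the vertex `c` is seen from the point `m`: the open segment contains no vertex and meets no
(open) edge -/
def Seen {ι : Type} (P : ι → ℝ × ℝ) (G : SimpleGraph ι) (m : ℝ × ℝ) (c : ι) : Prop :=
  (∀ d, ¬ OS m (P c) (P d)) ∧ ∀ x y z, G.Adj x y → OS m (P c) z → ¬ OS (P x) (P y) z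

/-- the graph `H` is a simple closed polygon through all points without straight angles (what is
needed): every vertex has exactly two neighbours, not collinear with it, and the polygon minus two
adjacent vertices is connected -/
structure Poly {ι : Type} (P : ι → ℝ × ℝ) (H : SimpleGraph ι) : Prop where
  deg : ∀ c, ∃ u w, u ≠ w ∧ cr (P c) (P u) (P w) ≠ 0 ∧ ∀ x, H.Adj c x ↔ (x = u ∨ x = w)
  conn : ∀ x y, H.Adj x y → ∀ S : Set ι, (∃ l, l ≠ x ∧ l ≠ y ∧ l ∈ S) →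
    (∃ r, r ≠ x ∧ r ≠ y ∧ r ∉ S) →
    ∃ c d, H.Adj c d ∧ c ∈ S ∧ d ∉ S ∧ c ≠ x ∧ c ≠ y ∧ d ≠ x ∧ d ≠ y

/-- all darts (oriented edges) -/
def darts {ι : Type} (G : SimpleGraph ι) : Set (ι × ι) := {p | G.Adj p.1 p.2}

/-- the darts which are not on the polygon -/
def inner {ι : Type} (G H : SimpleGraph ι) : Set (ι × ι) := {p | G.Adj p.1 p.2 ∧ ¬ H.Adj p.1 p.2}

/-- the outer darts: no vertex is strictly to the left -/
def outer {ι : Type} (P : ι → ℝ × ℝ) (G : SimpleGraph ι) : Set (ι × ι) :=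
  {p | G.Adj p.1 p.2 ∧ ∀ x, cr (P p.1) (P p.2) (P x) ≤ 0}

/-- the sources of the outer darts -/
def Hul {ι : Type} (P : ι → ℝ × ℝ) (G : SimpleGraph ι) : Set ι := {c | ∃ d, (c, d) ∈ outer P G}

/-- the darts `(c, q)`, not on the polygon, with the faces `c q r` and `q c s` and an angle
`≥ 180°` from `s` over `q` to `r` at `c` -/
def bad {ι : Type} (P : ι → ℝ × ℝ) (G H : SimpleGraph ι) : Set (ι × ι) :=
  {p | G.Adj p.1 p.2 ∧ ¬ H.Adj p.1 p.2 ∧ ∃ r s, Face P G p.1 p.2 r ∧ Face P G p.2 p.1 s ∧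
    cr (P p.1) (P s) (P r) ≤ 0}

/-- the darts `(a, b)`, not on the polygon, whose two faces `a b r` and `b a s` form a strictly
convex quadrilateral `a s b r` -/
def flip {ι : Type} (P : ι → ℝ × ℝ) (G H : SimpleGraph ι) : Set (ι × ι) :=
  {p | G.Adj p.1 p.2 ∧ ¬ H.Adj p.1 p.2 ∧ ∃ r s, Face P G p.1 p.2 r ∧ Face P G p.2 p.1 s ∧
    0 < cr (P p.1) (P s) (P r) ∧ 0 < cr (P p.2) (P r) (P s)}

/-- ordered clean diagonals of the polygon `H` -/
def clean {ι : Type} (P : ι → ℝ × ℝ) (H : SimpleGraph ι) : Set (ι × ι) :=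
  {p | p.1 ≠ p.2 ∧ ¬ H.Adj p.1 p.2 ∧ (∀ c, ¬ OS (P p.1) (P p.2) (P c)) ∧
    ∀ c d z, H.Adj c d → OS (P p.1) (P p.2) z → ¬ OS (P c) (P d) z}

/-- VIS -/
def S_VIS : Prop := ∀ (ι : Type) [Finite ι] (P : ι → ℝ × ℝ) (G : SimpleGraph ι), MaxPlane P G →
  ∀ (m : ℝ × ℝ) (f : ℝ × ℝ → ℝ), Aff f →
  (∀ a b t, G.Adj a b → 0 ≤ t → t ≤ 1 → m = ln (P a) (P b) t → f (P a) ≤ f m ∧ f (P b) ≤ f m) →
  (∃ x, f m < f (P x)) → ∃ c, f m < f (P c) ∧ Seen P G m c

/-- FACE -/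
def S_FACE : Prop := ∀ (ι : Type) [Finite ι] (P : ι → ℝ × ℝ) (G : SimpleGraph ι), MaxPlane P G →
  ∀ a b, G.Adj a b → (∃ x, 0 < cr (P a) (P b) (P x)) → ∃ c, Face P G a b c

/-- SEC1: no edge from `a` runs into the triangle `a b c` -/
def S_SEC1 : Prop := ∀ (ι : Type) (P : ι → ℝ × ℝ) (G : SimpleGraph ι), MaxPlane P G →
  ∀ a b c, Face P G a b c → ∀ x, G.Adj a x → 0 < cr (P a) (P b) (P x) →
    0 < cr (P a) (P x) (P c) → False

/-- SEC2: edges from `a` in the same direction are equal -/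
def S_SEC2 : Prop := ∀ (ι : Type) (P : ι → ℝ × ℝ) (G : SimpleGraph ι), MaxPlane P G →
  ∀ a b c, G.Adj a b → G.Adj a c → cr (P a) (P b) (P c) = 0 →
    (∃ s, 0 < cr (P a) (P b) s ∧ 0 < cr (P a) (P c) s) → b = c

/-- SEC3: the face to the left of a dart is unique -/
def S_SEC3 : Prop := ∀ (ι : Type) (P : ι → ℝ × ℝ) (G : SimpleGraph ι), MaxPlane P G →
  ∀ a b c c', Face P G a b c → Face P G a b c' → c = c'

/-- SEC4: two faces at `p` which contain the same direction are equal -/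
def S_SEC4 : Prop := ∀ (ι : Type) (P : ι → ℝ × ℝ) (G : SimpleGraph ι), MaxPlane P G →
  ∀ p a b a' b', Face P G p a b → Face P G p a' b' →
    (∃ s, 0 < cr (P p) (P a) s ∧ 0 < cr (P p) s (P b) ∧ 0 < cr (P p) (P a') s ∧
      0 < cr (P p) s (P b')) → a = a' ∧ b = b'

/-- TRI: no edge runs through the interior of a face -/
def S_TRI : Prop := ∀ (ι : Type) (P : ι → ℝ × ℝ) (G : SimpleGraph ι), MaxPlane P G →
  ∀ a b c, Face P G a b c → ∀ x y z, G.Adj x y → OS (P x) (P y) z → 0 < cr (P a) (P b) z →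
    0 < cr (P b) (P c) z → 0 < cr (P c) (P a) z → False

/-- EUL -/
def S_EUL : Prop := ∀ (ι : Type) [Finite ι] [Nonempty ι] (P : ι → ℝ × ℝ) (G : SimpleGraph ι),
  MaxPlane P G →
  6 * Nat.card ι ≤ (darts G).ncard + 2 * (outer P G).ncard + 6

/-- BAD: at most two bad darts per vertex, none at the vertices of the hull -/
def S_BAD : Prop := ∀ (ι : Type) [Finite ι] (P : ι → ℝ × ℝ) (G H : SimpleGraph ι), MaxPlane P G →
  H ≤ G → Poly P H → (bad P G H).ncard + 2 * (Hul P G).ncard ≤ 2 * Nat.card ι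

/-- OUT1 -/
def S_OUT1 : Prop := ∀ (ι : Type) [Finite ι] (P : ι → ℝ × ℝ) (G H : SimpleGraph ι), MaxPlane P G →
  H ≤ G → Poly P H → (outer P G).ncard = (Hul P G).ncard

/-- OUT2 -/
def S_OUT2 : Prop := ∀ (ι : Type) [Finite ι] (P : ι → ℝ × ℝ) (G H : SimpleGraph ι), MaxPlane P G →
  H ≤ G → Poly P H →
  {p ∈ outer P G | ¬ H.Adj p.1 p.2}.ncard + (Hul P G).ncard ≤ Nat.card ι

/-- FLIP -/
def S_FLIP : Prop := ∀ (ι : Type) [Finite ι] (P : ι → ℝ × ℝ) (G H : SimpleGraph ι), MaxPlane P G →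
  H ≤ G → Poly P H → (inner G H).ncard + (flip P G H).ncard ≤ (clean P H).ncard

/-- the final abstract result -/
def S_MAIN : Prop := ∀ (ι : Type) [Finite ι] [Nonempty ι] (P : ι → ℝ × ℝ) (G H : SimpleGraph ι),
  MaxPlane P G → H ≤ G → Poly P H → 3 * Nat.card ι ≤ (clean P H).ncard + 9

end Pool.Agent.K6.H22.PG
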