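import Pool.Agent.K6.H22.PG.Stm

/-! Piece TRI (helper13): no edge runs through the interior of a face. -/

set_option autoImplicit false

namespace Pool.Agent.K6.H22.PG

namespace Tri

variable {ι : Type} {P : ι → ℝ × ℝ} {G : SimpleGraph ι}

theorem OS_ln {x y z : ℝ × ℝ} (hz : OS x y z) {t : ℝ} (h0 : 0 < t) (h1 : t < 1) :
    OS x y (ln z y t) := by
  obtain ⟨s, hs0, hs1, rfl⟩ := hz
  refine ⟨(1 - t) * s + t, by nlinarith, by nlinarith, ?_⟩
  ext <;> simp only [ln] <;> ring

theorem OS_cr {p q z : ℝ × ℝ} (h : OS p q z) : cr p q z = 0 := by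
  obtain ⟨t, -, -, rfl⟩ := h
  simp only [cr, ln]; ring

/-- a point of an edge on a side of a face -/
theorem side (h : MaxPlane P G) {a b c x y : ι} {e : ℝ × ℝ} (hF : Face P G a b c)
    (hxy : G.Adj x y) (he : OS (P x) (P y) e) (h1 : cr (P a) (P b) e = 0)
    (h2 : 0 ≤ cr (P b) (P c) e) (h3 : 0 ≤ cr (P c) (P a) e) :
    (x = a ∧ y = b) ∨ (x = b ∧ y = a) := by
  have hD : 0 < cr (P a) (P b) (P c) := hF.2.2.2.1
  have hs := cr_sum (P a) (P b) (P c) e
  have hD' : cr (P a) (P b) (P c) ≠ 0 := hD.ne'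
  have he' : e = ln (P a) (P b) (cr (P c) (P a) e / cr (P a) (P b) (P c)) := by
    have e1 : cr (P a) (P b) (P c) * e.1 = cr (P b) (P c) e * (P a).1 + cr (P c) (P a) e * (P b).1
        + cr (P a) (P b) e * (P c).1 := by
      unfold cr; ring
    have e2 : cr (P a) (P b) (P c) * e.2 = cr (P b) (P c) e * (P a).2 + cr (P c) (P a) e * (P b).2
        + cr (P a) (P b) e * (P c).2 := by
      unfold cr; ring
    rw [h1] at e1 e2 hs
    have e3 : cr (P b) (P c) e = cr (P a) (P b) (P c) - cr (P c) (P a) e := by linarith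
    rw [e3] at e1 e2
    ext
    · simp only [ln]
      field_simp
      linarith
    · simp only [ln]
      field_simp
      linarith
  rcases eq_or_lt_of_le h3 with h3' | h3'
  · exfalso
    rw [← h3', zero_div, ln_zero] at he'
    rw [he'] at he
    exact h.vtx _ _ _ hxy he
  rcases eq_or_lt_of_le h2 with h2' | h2'
  · exfalso
    have : cr (P c) (P a) e / cr (P a) (P b) (P c) = 1 := by
      rw [div_eq_one_iff_eq hD']; linarith
    rw [this, ln_one] at he'
    rw [he'] at he
    exact h.vtx _ _ _ hxy he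
  have he2 : OS (P a) (P b) e := by
    refine ⟨_, div_pos h3' hD, ?_, he'⟩
    rw [div_lt_one hD]
    linarith
  exact h.noX _ _ _ _ _ hxy hF.1 he he2

theorem corner (h : MaxPlane P G) {a b c x y : ι} {z : ℝ × ℝ} (hF : Face P G a b c)
    (hxy : G.Adj x y) (hz : OS (P x) (P y) z) (h1 : 0 < cr (P a) (P b) z)
    (h2 : 0 < cr (P b) (P c) z) (h3 : 0 < cr (P c) (P a) z) : y = a ∨ y = b ∨ y = c := by
  by_contra hcon
  set F : ℝ → ℝ := fun t => min ((1 - t) * cr (P a) (P b) z + t * cr (P a) (P b) (P y))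
    (min ((1 - t) * cr (P b) (P c) z + t * cr (P b) (P c) (P y))
      ((1 - t) * cr (P c) (P a) z + t * cr (P c) (P a) (P y))) with hFdef
  have hcont : Continuous F := by fun_prop
  have hF0 : 0 < F 0 := by
    simp only [hFdef, sub_zero, one_mul, zero_mul, add_zero, lt_min_iff]
    exact ⟨h1, h2, h3⟩
  have hF1 : F 1 < 0 := by
    by_contra hn
    push Not at hn
    simp only [hFdef, sub_self, one_mul, zero_mul, zero_add, le_min_iff] at hn
    exact hcon (hF.2.2.2.2 y hn.1 hn.2.1 hn.2.2)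
  obtain ⟨t, ht, htF⟩ := intermediate_value_Icc' (zero_le_one) hcont.continuousOn
    (⟨hF1.le, hF0.le⟩ : (0 : ℝ) ∈ Set.Icc (F 1) (F 0))
  have ht0 : 0 < t := by
    rcases eq_or_lt_of_le ht.1 with h | h
    · rw [← h] at htF; exact absurd htF hF0.ne'
    · exact h
  have ht1 : t < 1 := by
    rcases eq_or_lt_of_le ht.2 with h | h
    · rw [h] at htF; exact absurd htF hF1.ne
    · exact h
  have he := OS_ln hz ht0 ht1
  set e := ln z (P y) t with hedef
  have ea : cr (P a) (P b) e = (1 - t) * cr (P a) (P b) z + t * cr (P a) (P b) (P y) :=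
    aff3 (P a) (P b) z (P y) t
  have eb : cr (P b) (P c) e = (1 - t) * cr (P b) (P c) z + t * cr (P b) (P c) (P y) :=
    aff3 (P b) (P c) z (P y) t
  have ec : cr (P c) (P a) e = (1 - t) * cr (P c) (P a) z + t * cr (P c) (P a) (P y) :=
    aff3 (P c) (P a) z (P y) t
  have hmin : min (cr (P a) (P b) e) (min (cr (P b) (P c) e) (cr (P c) (P a) e)) = 0 := by
    rw [ea, eb, ec]
    exact htF
  have hle : 0 ≤ cr (P a) (P b) e ∧ 0 ≤ cr (P b) (P c) e ∧ 0 ≤ cr (P c) (P a) e := by
    have := hmin.ge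
    simp only [le_min_iff] at this
    exact this
  have hor : cr (P a) (P b) e = 0 ∨ cr (P b) (P c) e = 0 ∨ cr (P c) (P a) e = 0 := by
    by_contra hn
    push Not at hn
    have : 0 < min (cr (P a) (P b) e) (min (cr (P b) (P c) e) (cr (P c) (P a) e)) := by
      simp only [lt_min_iff]
      exact ⟨lt_of_le_of_ne hle.1 (Ne.symm hn.1), lt_of_le_of_ne hle.2.1 (Ne.symm hn.2.1),
        lt_of_le_of_ne hle.2.2 (Ne.symm hn.2.2)⟩
    exact absurd hmin this.ne'
  apply hcon
  rcases hor with h0 | h0 | h0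
  · rcases side h hF hxy he h0 hle.2.1 hle.2.2 with h4 | h4
    · exact Or.inr (Or.inl h4.2)
    · exact Or.inl h4.2
  · rcases side h hF.rot hxy he h0 hle.2.2 hle.1 with h4 | h4
    · exact Or.inr (Or.inr h4.2)
    · exact Or.inr (Or.inl h4.2)
  · rcases side h hF.rot.rot hxy he h0 hle.1 hle.2.1 with h4 | h4
    · exact Or.inl h4.2
    · exact Or.inr (Or.inr h4.2)

end Tri

theorem piece_TRI : S_TRI := by
  intro ι P G h a b c hF x y z hxy hz h1 h2 h3
  have hy := Tri.corner h hF hxy hz h1 h2 h3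
  have hx := Tri.corner h hF hxy.symm (OS_comm hz) h1 h2 h3
  have hne : x ≠ y := hxy.ne
  have z1 := Tri.OS_cr hz
  have z2 := Tri.OS_cr (OS_comm hz)
  rcases hx with rfl | rfl | rfl <;> rcases hy with rfl | rfl | rfl
  all_goals first
    | exact hne rfl
    | exact absurd z1 h1.ne'
    | exact absurd z1 h2.ne'
    | exact absurd z1 h3.ne'
    | exact absurd z2 h1.ne'
    | exact absurd z2 h2.ne'
    | exact absurd z2 h3.ne'

end Pool.Agent.K6.H22.PG
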