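import Pool.Agent.K6.H22.PG.Stm

/-!
VIS: a vertex with larger value of an affine function is seen from a point `m`.
-/

set_option autoImplicit false

namespace Pool.Agent.K6.H22.PG

open Set

theorem Aff.normal {f : ℝ × ℝ → ℝ} (h : Aff f) :
    ∃ a b c : ℝ, ∀ u : ℝ × ℝ, f u = a * u.1 + b * u.2 + c := by
  refine ⟨f (1, 0) - f (0, 0), f (0, 1) - f (0, 0), f (0, 0), fun u => ?_⟩
  have h1 := h (2 * u.1, 0) (0, 2 * u.2) (1 / 2)
  have h2 := h (0, 0) (1, 0) (2 * u.1)
  have h3 := h (0, 0) (0, 1) (2 * u.2)
  have e1 : ln (2 * u.1, 0) (0, 2 * u.2) (1 / 2) = u := by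
    ext <;> simp only [ln] <;> ring
  have e2 : ln (0, 0) (1, 0) (2 * u.1) = (2 * u.1, 0) := by
    ext <;> simp only [ln] <;> ring
  have e3 : ln (0, 0) (0, 1) (2 * u.2) = (0, 2 * u.2) := by
    ext <;> simp only [ln] <;> ring
  rw [e1] at h1
  rw [e2] at h2
  rw [e3] at h3
  rw [h1, h2, h3]
  ring

/-- barycentric coordinates -/
theorem bary {f : ℝ × ℝ → ℝ} (h : Aff f) {z m p : ℝ × ℝ} (hD : cr z m p ≠ 0) (u : ℝ × ℝ) :
    f u = (1 - cr z u p / cr z m p - cr z m u / cr z m p) * f z + cr z u p / cr z m p * f m +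
      cr z m u / cr z m p * f p := by
  obtain ⟨a, b, c, hf⟩ := h.normal
  simp only [hf]
  field_simp
  unfold cr
  ring

theorem aff_fst : Aff (fun z => z.1) := fun _ _ _ => rfl
theorem aff_snd : Aff (fun z => z.2) := fun _ _ _ => rfl

/-- a point is determined by its coordinates -/
theorem coord_ext {z m p u v : ℝ × ℝ} (hD : cr z m p ≠ 0) (h1 : cr z u p = cr z v p)
    (h2 : cr z m u = cr z m v) : u = v := by
  ext
  · have a1 := bary aff_fst hD u
    have a2 := bary aff_fst hD v
    rw [a1, a2, h1, h2]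
  · have a1 := bary aff_snd hD u
    have a2 := bary aff_snd hD v
    rw [a1, a2, h1, h2]

/-- the closed segment -/
def CS (p q z : ℝ × ℝ) : Prop := ∃ t : ℝ, 0 ≤ t ∧ t ≤ 1 ∧ z = ln p q t

theorem OS.cs {p q z : ℝ × ℝ} (h : OS p q z) : CS p q z := by
  obtain ⟨t, h0, h1, rfl⟩ := h
  exact ⟨t, h0.le, h1.le, rfl⟩

theorem CS_comm {p q z : ℝ × ℝ} (h : CS p q z) : CS q p z := by
  obtain ⟨t, h0, h1, rfl⟩ := h
  exact ⟨1 - t, by linarith, by linarith, by rw [ln_swap q p]⟩

theorem CS_cases {p q z : ℝ × ℝ} (h : CS p q z) : z = p ∨ z = q ∨ OS p q z := by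
  obtain ⟨t, h0, h1, rfl⟩ := h
  rcases h0.eq_or_lt with rfl | h0
  · exact Or.inl (ln_zero _ _)
  · rcases h1.eq_or_lt with rfl | h1
    · exact Or.inr (Or.inl (ln_one _ _))
    · exact Or.inr (Or.inr ⟨t, h0, h1, rfl⟩)

theorem CS.aff_le {f : ℝ × ℝ → ℝ} (hf : Aff f) {p q z : ℝ × ℝ} {c : ℝ} (h : CS p q z)
    (hp : f p ≤ c) (hq : f q ≤ c) : f z ≤ c := by
  obtain ⟨t, h0, h1, rfl⟩ := h
  rw [hf]
  nlinarith

theorem MaxPlane.vtx' {ι : Type} {P : ι → ℝ × ℝ} {G : SimpleGraph ι} (hM : MaxPlane P G)
    {a b c : ι} (h : G.Adj a b) (hc : CS (P a) (P b) (P c)) : c = a ∨ c = b := by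
  rcases CS_cases hc with h1 | h1 | h1
  · exact Or.inl (hM.inj h1)
  · exact Or.inr (hM.inj h1)
  · exact absurd h1 (hM.vtx a b c h)

theorem isClosed_CS (p q : ℝ × ℝ) : IsClosed {z | CS p q z} := by
  have h : {z | CS p q z} = (fun t => ln p q t) '' Icc (0 : ℝ) 1 := by
    ext z
    constructor
    · rintro ⟨t, h0, h1, rfl⟩
      exact ⟨t, ⟨h0, h1⟩, rfl⟩
    · rintro ⟨t, ⟨h0, h1⟩, rfl⟩
      exact ⟨t, h0, h1, rfl⟩
  rw [h]
  refine (isCompact_Icc.image ?_).isClosed
  unfold ln
  fun_prop

/-- collinear points -/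
theorem collinear_ln {z m u : ℝ × ℝ} (hzm : z ≠ m) (h : cr z m u = 0) : ∃ l : ℝ, u = ln z m l := by
  unfold cr at h
  by_cases h1 : m.1 - z.1 = 0
  · have h2 : m.2 - z.2 ≠ 0 := by
      intro h2
      exact hzm (Prod.ext (by linarith) (by linarith))
    refine ⟨(u.2 - z.2) / (m.2 - z.2), ?_⟩
    have h3 : u.1 = z.1 := by
      rw [h1] at h
      have : (m.2 - z.2) * (u.1 - z.1) = 0 := by linarith
      rcases mul_eq_zero.1 this with h4 | h4
      · exact absurd h4 h2
      · linarith
    ext
    · simp only [ln]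
      rw [h3]
      have : m.1 = z.1 := by linarith
      rw [this]
      ring
    · simp only [ln]
      field_simp
      ring
  · refine ⟨(u.1 - z.1) / (m.1 - z.1), ?_⟩
    ext
    · simp only [ln]
      field_simp
      ring
    · simp only [ln]
      field_simp
      linarith

/-- the first obstacle on the way from `m` to a vertex -/
theorem first_obstacle {ι : Type} [Finite ι] {P : ι → ℝ × ℝ} {G : SimpleGraph ι}
    {m : ℝ × ℝ} {f : ℝ × ℝ → ℝ} (hf : Aff f)
    (hm : ∀ a b, G.Adj a b → CS (P a) (P b) m → f (P a) ≤ f m ∧ f (P b) ≤ f m)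
    {x : ι} (hx : f m < f (P x)) :
    ∃ z, f m < f z ∧ (∀ e, OS m z e → (∀ d, e ≠ P d) ∧ ∀ a b, G.Adj a b → ¬ CS (P a) (P b) e) ∧
      ((∃ c, z = P c) ∨ ∃ p q, G.Adj p q ∧ CS (P p) (P q) z ∧ ¬ CS (P p) (P q) m) := by
  let B : Set ℝ := Icc 0 1 ∩ ((⋃ d : {d // P d ≠ m}, {t | ln m (P x) t = P d}) ∪
    ⋃ e : {e : ι × ι // G.Adj e.1 e.2 ∧ ¬ CS (P e.1) (P e.2) m},
      {t | CS (P e.1.1) (P e.1.2) (ln m (P x) t)})
  have hcont : Continuous fun t => ln m (P x) t := by
    unfold ln
    fun_prop
  have hB : IsCompact B := by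
    refine isCompact_Icc.inter_right (IsClosed.union ?_ ?_)
    · exact isClosed_iUnion_of_finite fun d => isClosed_eq hcont continuous_const
    · exact isClosed_iUnion_of_finite fun e => (isClosed_CS _ _).preimage hcont
  have hx0 : P x ≠ m := fun h => by
    rw [h] at hx
    exact lt_irrefl _ hx
  have h1B : (1 : ℝ) ∈ B :=
    ⟨⟨zero_le_one, le_rfl⟩, Or.inl (mem_iUnion.2 ⟨⟨x, hx0⟩, ln_one _ _⟩)⟩
  obtain ⟨t0, ⟨ht01, ht0B⟩, ht0⟩ := hB.exists_isLeast ⟨1, h1B⟩
  have hpos : 0 < t0 := by
    rcases ht01.1.eq_or_lt with h | h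
    · exfalso
      rw [← h] at ht0B
      rcases ht0B with h1 | h1
      · obtain ⟨d, hd⟩ := mem_iUnion.1 h1
        have h2 : ln m (P x) 0 = P d := hd
        rw [ln_zero] at h2
        exact d.2 h2.symm
      · obtain ⟨e, he⟩ := mem_iUnion.1 h1
        have h2 : CS (P e.1.1) (P e.1.2) (ln m (P x) 0) := he
        rw [ln_zero] at h2
        exact e.2.2 h2
    · exact h
  have hfz : ∀ t, 0 < t → f m < f (ln m (P x) t) := by
    intro t ht
    rw [hf]
    nlinarith
  refine ⟨ln m (P x) t0, hfz t0 hpos, ?_, ?_⟩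
  · rintro e ⟨s, hs0, hs1, rfl⟩
    have hln : ln m (ln m (P x) t0) s = ln m (P x) (s * t0) := by
      ext <;> simp only [ln] <;> ring
    rw [hln]
    have hlt : s * t0 < t0 := by nlinarith
    have hst : 0 < s * t0 := by positivity
    have hnot : s * t0 ∉ B := fun h => absurd (ht0 h) (not_le.2 hlt)
    have hicc : s * t0 ∈ Icc (0 : ℝ) 1 := ⟨hst.le, by linarith [ht01.2]⟩
    constructor
    · intro d hd
      apply hnot
      refine ⟨hicc, Or.inl (mem_iUnion.2 ⟨⟨d, ?_⟩, hd⟩)⟩
      intro h
      have := hfz _ hst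
      rw [hd, h] at this
      exact lt_irrefl _ this
    · intro a b hab hcs
      by_cases hmab : CS (P a) (P b) m
      · have h1 := hm a b hab hmab
        have h2 := hcs.aff_le hf h1.1 h1.2
        have := hfz _ hst
        linarith
      · exact hnot ⟨hicc, Or.inr (mem_iUnion.2 ⟨⟨(a, b), hab, hmab⟩, hcs⟩)⟩
  · rcases ht0B with h1 | h1
    · obtain ⟨d, hd⟩ := mem_iUnion.1 h1
      exact Or.inl ⟨d, hd⟩
    · obtain ⟨e, he⟩ := mem_iUnion.1 h1
      exact Or.inr ⟨e.1.1, e.1.2, e.2.1, he, e.2.2⟩

theorem not_col_aux {a b z m : ℝ × ℝ} {r l : ℝ} (hr0 : 0 < r) (hr1 : r < 1) (hz : z = ln a b r)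
    (ha : a = ln z m l) (hl : 0 < l) : OS m z a ∨ CS a b m := by
  by_cases h1 : l < 1
  · left
    refine ⟨1 - l, by linarith, by linarith, ?_⟩
    rw [ln_swap z m (1 - l), sub_sub_cancel]
    exact ha
  · right
    push Not at h1
    have hl' : l ≠ 0 := hl.ne'
    have e1 : m.1 = (1 - (1 - 1 / l)) * a.1 + (1 - 1 / l) * z.1 := by
      have := congrArg Prod.fst ha
      simp only [ln] at this
      rw [this]
      field_simp
      ring
    have e2 : m.2 = (1 - (1 - 1 / l)) * a.2 + (1 - 1 / l) * z.2 := by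
      have := congrArg Prod.snd ha
      simp only [ln] at this
      rw [this]
      field_simp
      ring
    have h2 : 0 ≤ 1 - 1 / l := by
      rw [sub_nonneg, div_le_one hl]
      exact h1
    have h3 : 1 - 1 / l ≤ 1 := by
      have : 0 < 1 / l := by positivity
      linarith
    refine ⟨r * (1 - 1 / l), by positivity, by nlinarith, ?_⟩
    ext
    · rw [e1, hz]
      simp only [ln]
      ring
    · rw [e2, hz]
      simp only [ln]
      ring

/-- the second case: the first obstacle is an edge -/
theorem vis_edge {ι : Type} [Finite ι] {P : ι → ℝ × ℝ} {G : SimpleGraph ι} (hM : MaxPlane P G)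
    {m : ℝ × ℝ} {f : ℝ × ℝ → ℝ} (hf : Aff f)
    (hm : ∀ a b, G.Adj a b → CS (P a) (P b) m → f (P a) ≤ f m ∧ f (P b) ≤ f m)
    {z : ℝ × ℝ} (hzf : f m < f z)
    (hmz : ∀ e, OS m z e → (∀ d, e ≠ P d) ∧ ∀ a b, G.Adj a b → ¬ CS (P a) (P b) e)
    {p q : ι} (hpq : G.Adj p q) (hz : OS (P p) (P q) z) (hmn : ¬ CS (P p) (P q) m)
    (hfp : f z ≤ f (P p)) : ∃ c, f m < f (P c) ∧ Seen P G m c := by
  have hzv : ∀ d, z ≠ P d := by
    rintro d rfl
    exact hM.vtx p q d hpq hz
  have hzm : z ≠ m := fun h => by
    rw [h] at hzf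
    exact lt_irrefl _ hzf
  -- not collinear
  have hD : cr z m (P p) ≠ 0 := by
    intro h0
    obtain ⟨l, hl⟩ := collinear_ln hzm h0
    obtain ⟨r, hr0, hr1, hr⟩ := hz
    rcases lt_trichotomy l 0 with h1 | h1 | h1
    · -- the other end
      have hq : P q = ln z m (-(l * (1 - r) / r)) := by
        have e1 := congrArg Prod.fst hr
        have e2 := congrArg Prod.snd hr
        have e3 := congrArg Prod.fst hl
        have e4 := congrArg Prod.snd hl
        simp only [ln] at e1 e2 e3 e4
        have hr' : r ≠ 0 := hr0.ne'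
        ext
        · simp only [ln]
          field_simp
          linear_combination (-1 : ℝ) * e1 - (1 - r) * e3
        · simp only [ln]
          field_simp
          linear_combination (-1 : ℝ) * e2 - (1 - r) * e4
      have hpos : 0 < -(l * (1 - r) / r) := by
        rw [← neg_div, ← neg_mul]
        exact div_pos (mul_pos (by linarith) (by linarith)) hr0
      rcases not_col_aux (a := P q) (b := P p) (r := 1 - r) (by linarith) (by linarith)
        (by rw [hr, ln_swap (P q) (P p)]) hq hpos with h2 | h2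
      · exact (hmz _ h2).1 q rfl
      · exact hmn (CS_comm h2)
    · rw [h1, ln_zero] at hl
      exact hzv p hl.symm
    · rcases not_col_aux hr0 hr1 hr hl h1 with h2 | h2
      · exact (hmz _ h2).1 p rfl
      · exact hmn h2
  -- coordinates
  obtain ⟨al, hal⟩ : ∃ al : ℝ × ℝ → ℝ, al = fun u => cr z u (P p) / cr z m (P p) := ⟨_, rfl⟩
  obtain ⟨ga, hga⟩ : ∃ ga : ℝ × ℝ → ℝ, ga = fun u => cr z m u / cr z m (P p) := ⟨_, rfl⟩
  have affal : Aff al := by rw [hal]; exact (aff2 _ _).div _
  have affga : Aff ga := by rw [hga]; exact (aff3 _ _).div _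
  have alm : al m = 1 := by rw [hal]; exact div_self hD
  have alz : al z = 0 := by simp [hal]
  have alp : al (P p) = 0 := by simp [hal]
  have gam : ga m = 0 := by simp [hga]
  have gaz : ga z = 0 := by simp [hga]
  have gap : ga (P p) = 1 := by rw [hga]; exact div_self hD
  have hext : ∀ u v, al u = al v → ga u = ga v → u = v := by
    intro u v h1 h2
    rw [hal] at h1
    rw [hga] at h2
    refine coord_ext hD ?_ ?_
    · field_simp at h1
      exact h1
    · field_simp at h2
      exact h2
  have hfu : ∀ u, f u = (1 - al u - ga u) * f z + al u * f m + ga u * f (P p) := by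
    intro u
    rw [hal, hga]
    exact bary hf hD u
  have hfpm : 0 < f (P p) - f m := by linarith
  -- the line `z p`
  have alq : al (P q) = 0 := by
    obtain ⟨r, hr0, hr1, hr⟩ := hz
    have h1 := affal (P p) (P q) r
    rw [← hr, alz, alp] at h1
    have : r * al (P q) = 0 := by linarith
    exact (mul_eq_zero.1 this).resolve_left hr0.ne'
  have alpq : ∀ w x y, OS (P x) (P y) w → (x = p ∧ y = q) ∨ (x = q ∧ y = p) → al w = 0 := by
    rintro w x y ⟨t, _, _, rfl⟩ (⟨rfl, rfl⟩ | ⟨rfl, rfl⟩)
    · rw [affal, alp, alq]; ring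
    · rw [affal, alp, alq]; ring
  -- the candidates
  let C : Set ι := {u | 0 < ga (P u) ∧ 0 ≤ al (P u) ∧ al (P u) + ga (P u) ≤ 1}
  have hpC : p ∈ C := by
    refine ⟨?_, ?_, ?_⟩
    · rw [gap]; exact one_pos
    · rw [alp]
    · rw [gap, alp]; norm_num
  obtain ⟨c, hcC, hcmin⟩ : ∃ c ∈ C, ∀ u ∈ C, toLex (ga (P c) / (1 - al (P c)), ga (P c)) ≤
      toLex (ga (P u) / (1 - al (P u)), ga (P u)) :=
    Set.exists_min_image C (fun u => toLex (ga (P u) / (1 - al (P u)), ga (P u)))
      (Set.toFinite C) ⟨p, hpC⟩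
  obtain ⟨hc1, hc2, hc3⟩ := hcC
  have hc4 : 0 < 1 - al (P c) := by linarith
  have hmin1 : ∀ u ∈ C, ga (P c) / (1 - al (P c)) ≤ ga (P u) / (1 - al (P u)) := by
    intro u hu
    have := hcmin u hu
    rw [Prod.Lex.toLex_le_toLex] at this
    rcases this with h | h
    · exact h.le
    · exact h.1.le
  have hmin2 : ∀ u ∈ C, ga (P u) / (1 - al (P u)) = ga (P c) / (1 - al (P c)) →
      ga (P c) ≤ ga (P u) := by
    intro u hu he
    have := hcmin u hu
    rw [Prod.Lex.toLex_le_toLex] at this
    rcases this with h | h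
    · simp only [he] at h
      exact absurd h (lt_irrefl _)
    · exact h.2
  have hfc : f m < f (P c) := by
    have h1 := hfu (P c)
    nlinarith
  refine ⟨c, hfc, ?_, ?_⟩
  · -- no vertex
    rintro d ⟨s, hs0, hs1, hs⟩
    have ad : al (P d) = (1 - s) + s * al (P c) := by rw [hs, affal, alm]; ring
    have gd : ga (P d) = s * ga (P c) := by rw [hs, affga, gam]; ring
    have hd : d ∈ C := by
      refine ⟨?_, ?_, ?_⟩
      · rw [gd]; positivity
      · rw [ad]; nlinarith
      · rw [ad, gd]; nlinarith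
    have hrho : ga (P d) / (1 - al (P d)) = ga (P c) / (1 - al (P c)) := by
      rw [ad, gd]
      have : 1 - ((1 - s) + s * al (P c)) = s * (1 - al (P c)) := by ring
      rw [this, mul_div_mul_left _ _ hs0.ne']
    have h1 := hmin2 d hd hrho
    rw [gd] at h1
    nlinarith
  · -- no edge
    rintro x y w hxy ⟨s, hs0, hs1, hs⟩ hw
    have aw : al w = (1 - s) + s * al (P c) := by rw [hs, affal, alm]; ring
    have gw : ga w = s * ga (P c) := by rw [hs, affga, gam]; ring
    have aw0 : 0 < al w := by rw [aw]; nlinarith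
    have gw0 : 0 < ga w := by rw [gw]; positivity
    have hfw : f m < f w := by
      rw [hs, hf]
      nlinarith
    let φ : ℝ × ℝ → ℝ := fun u => ga (P c) * al u + (1 - al (P c)) * ga u
    have affφ : Aff φ := affal.comb affga _ _
    have hφ : ∀ u, φ u = ga (P c) * al u + (1 - al (P c)) * ga u := fun u => rfl
    have φw : φ w = ga (P c) := by rw [hφ, aw, gw]; ring
    have hxym : ¬ CS (P x) (P y) m := by
      intro h
      have h1 := hm x y hxy h
      have h2 := hw.cs.aff_le hf h1.1 h1.2
      linarith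
    -- endpoints with small `φ`
    have key : ∀ x y, G.Adj x y → OS (P x) (P y) w → ¬ CS (P x) (P y) m →
        φ (P y) ≤ ga (P c) → φ (P y) = ga (P c) ∧ ga (P c) ≤ ga (P y) := by
      intro x y hxy hw hxym hy
      have hcand : (0 < al (P y) ∧ 0 < ga (P y)) ∨ y = p := by
        by_contra hcon
        push Not at hcon
        obtain ⟨hcon1, hcon2⟩ := hcon
        have h4 : ¬ (0 < al (P y) ∧ 0 < ga (P y)) := fun h => absurd h.2 (not_lt.2 (hcon1 h.1))
        obtain ⟨t, ht0, ht1, hea, heg, hz0, hφe⟩ := wall affal affga affφ aw0 gw0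
          (by rw [φw]; exact hy) h4
        obtain ⟨e, he⟩ : ∃ e, e = ln w (P y) t := ⟨_, rfl⟩
        rw [← he] at hea heg hz0 hφe
        rw [φw, hφ] at hφe
        -- `e` is on the closed edge, not the end `x`
        obtain ⟨r, hr0, hr1, hr⟩ := hw
        have hexy : CS (P x) (P y) e := by
          refine ⟨(1 - t) * r + t, by nlinarith, by nlinarith, ?_⟩
          rw [he, hr]
          ext <;> simp only [ln] <;> ring
        have hex : e ≠ P x := by
          intro h
          rw [he, hr] at h
          have hxy' : P x ≠ P y := fun h' => hxy.ne (hM.inj h')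
          apply hxy'
          have h5 : 0 < (1 - t) * r + t := by nlinarith
          have e1 := congrArg Prod.fst h
          have e2 := congrArg Prod.snd h
          simp only [ln] at e1 e2
          ext
          · have : ((1 - t) * r + t) * ((P x).1 - (P y).1) = 0 := by linear_combination -e1
            have := (mul_eq_zero.1 this).resolve_left h5.ne'
            linarith
          · have : ((1 - t) * r + t) * ((P x).2 - (P y).2) = 0 := by linear_combination -e2
            have := (mul_eq_zero.1 this).resolve_left h5.ne'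
            linarith
        have hw' : OS (P x) (P y) w := ⟨r, hr0, hr1, hr⟩
        by_cases hge : ga e = 0
        · -- on the segment `z m`
          rw [hge] at hφe
          have hal1 : al e ≤ 1 := by
            have : ga (P c) * al e ≤ ga (P c) * 1 := by linarith
            exact le_of_mul_le_mul_left this hc1
          have hee : e = ln z m (al e) := by
            apply hext
            · rw [affal, alz, alm]; ring
            · rw [affga, gaz, gam, hge]; ring
          rcases hal1.eq_or_lt with h5 | h5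
          · rw [h5, ln_one] at hee
            rw [hee] at hexy
            exact hxym hexy
          · rcases hea.eq_or_lt with h6 | h6
            · rw [← h6, ln_zero] at hee
              rcases CS_cases hexy with h7 | h7 | h7
              · exact hex h7
              · exact hzv y (hee ▸ h7)
              · rw [hee] at h7
                have h8 := hM.noX x y p q z hxy hpq h7 hz
                have := alpq w x y hw' h8
                linarith
            · have h7 : OS m z e := by
                refine ⟨1 - al e, by linarith, by linarith, ?_⟩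
                rw [ln_swap z m, sub_sub_cancel]
                exact hee
              exact (hmz e h7).2 x y hxy hexy
        · have hae : al e = 0 := hz0.resolve_right hge
          have hgp : 0 < ga e := lt_of_le_of_ne heg (Ne.symm hge)
          rw [hae] at hφe
          have hg1 : ga e ≤ 1 := by
            have : (1 - al (P c)) * ga e ≤ (1 - al (P c)) * 1 := by linarith
            exact le_of_mul_le_mul_left this hc4
          have hee : e = ln z (P p) (ga e) := by
            apply hext
            · rw [affal, alz, alp, hae]; ring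
            · rw [affga, gaz, gap]; ring
          rcases hg1.eq_or_lt with h5 | h5
          · rw [h5, ln_one] at hee
            rw [hee] at hexy hex
            rcases hM.vtx' hxy hexy with h6 | h6
            · exact hex (by rw [h6])
            · exact hcon2 h6.symm
          · -- `e` is in the open edge `p q`
            have hepq : OS (P p) (P q) e := by
              obtain ⟨r', hr'0, hr'1, hr'⟩ := hz
              refine ⟨(1 - ga e) * r', by nlinarith, by nlinarith, ?_⟩
              conv_lhs => rw [hee, hr']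
              ext <;> simp only [ln] <;> ring
            rcases CS_cases hexy with h7 | h7 | h7
            · exact hex h7
            · rw [h7] at hepq
              exact hM.vtx p q y hpq hepq
            · have h8 := hM.noX x y p q e hxy hpq h7 hepq
              have := alpq w x y hw' h8
              linarith
      have hyC : y ∈ C := by
        rcases hcand with h | h
        · refine ⟨h.2, h.1.le, ?_⟩
          rw [hφ] at hy
          have h5 : ga (P c) * (al (P y) + ga (P y)) ≤ ga (P c) * 1 := by nlinarith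
          exact le_of_mul_le_mul_left h5 hc1
        · rw [h]; exact hpC
      have h1 := hmin1 y hyC
      have hy4 : 0 < 1 - al (P y) := by linarith [hyC.1, hyC.2.2]
      rw [div_le_div_iff₀ hc4 hy4] at h1
      rw [hφ] at hy ⊢
      have h2 : ga (P c) * al (P y) + (1 - al (P c)) * ga (P y) = ga (P c) := by linarith
      refine ⟨h2, hmin2 y hyC ?_⟩
      rw [div_eq_div_iff hy4.ne' hc4.ne']
      linarith
    -- conclusion
    have hw0 := hw
    obtain ⟨r, hr0, hr1, hr⟩ := hw0
    have h1 : φ w = (1 - r) * φ (P x) + r * φ (P y) := by rw [hr, affφ]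
    have hyx : OS (P y) (P x) w := OS_comm hw
    have hyxm : ¬ CS (P y) (P x) m := fun h => hxym (CS_comm h)
    rw [φw] at h1
    have h2 : φ (P x) = ga (P c) ∧ ga (P c) ≤ ga (P x) ∧ φ (P y) = ga (P c) ∧
        ga (P c) ≤ ga (P y) := by
      by_cases h3 : φ (P y) ≤ ga (P c)
      · obtain ⟨h4, h5⟩ := key x y hxy hw hxym h3
        have h6 : φ (P x) ≤ ga (P c) := by
          rw [h4] at h1
          have : (1 - r) * φ (P x) ≤ (1 - r) * ga (P c) := by linarith
          exact le_of_mul_le_mul_left this (by linarith)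
        obtain ⟨h7, h8⟩ := key y x hxy.symm hyx hyxm h6
        exact ⟨h7, h8, h4, h5⟩
      · push Not at h3
        have h6 : φ (P x) ≤ ga (P c) := by
          have : (1 - r) * φ (P x) ≤ (1 - r) * ga (P c) := by nlinarith
          exact le_of_mul_le_mul_left this (by linarith)
        obtain ⟨h7, h8⟩ := key y x hxy.symm hyx hyxm h6
        rw [h7] at h1
        have : r * φ (P y) = r * ga (P c) := by linarith
        have h9 := mul_left_cancel₀ hr0.ne' this
        linarith
    obtain ⟨-, h3, -, h4⟩ := h2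
    have h5 : ga w = (1 - r) * ga (P x) + r * ga (P y) := by rw [hr, affga]
    rw [gw] at h5
    nlinarith

/-- **VIS.** -/
theorem piece_VIS : S_VIS := by
  intro ι _ P G hM m f hf hm hx
  have hm' : ∀ a b, G.Adj a b → CS (P a) (P b) m → f (P a) ≤ f m ∧ f (P b) ≤ f m := by
    rintro a b hab ⟨t, h0, h1, ht⟩
    exact hm a b t hab h0 h1 ht
  obtain ⟨x, hx⟩ := hx
  obtain ⟨z, hzf, hmz, hz⟩ := first_obstacle hf hm' hx
  have hvert : ∀ c, z = P c → ∃ c, f m < f (P c) ∧ Seen P G m c := by
    rintro c rfl
    exact ⟨c, hzf, fun d hd => (hmz _ hd).1 d rfl, fun x y w hxy hw h => (hmz _ hw).2 x y hxy h.cs⟩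
  rcases hz with ⟨c, hc⟩ | ⟨p, q, hpq, hz, hmn⟩
  · exact hvert c hc
  · rcases CS_cases hz with h | h | h
    · exact hvert p h
    · exact hvert q h
    · by_cases hfp : f z ≤ f (P p)
      · exact vis_edge hM hf hm' hzf hmz hpq h hmn hfp
      · have hfq : f z ≤ f (P q) := by
          push Not at hfp
          obtain ⟨r, hr0, hr1, hr⟩ := h
          have h1 : f z = (1 - r) * f (P p) + r * f (P q) := by rw [hr, hf]
          by_contra hcon
          push Not at hcon
          nlinarith
        exact vis_edge hM hf hm' hzf hmz hpq.symm (OS_comm h) (fun h' => hmn (CS_comm h')) hfq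

end Pool.Agent.K6.H22.PG
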